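import Pool.Agent.H37.FB.Fis
import Pool.Agent.H55.FB.Qpt
import Pool.Agent.H55.FB.Mal

/-!
MP_6e521b_an: the a priori estimate for homogeneous polynomials, and its invariance under
translations (helper37).
-/

open MvPolynomial MeasureTheory Pool.Agent.H77.FB Pool.Agent.H55.FB

namespace Pool.Agent.H60.FB

variable {n : ℕ}

/-- division by `P`: the unit balls -/
lemma homog_div {P : MvPolynomial (Fin n) ℂ} {m : ℕ} (h : P.IsHomogeneous m) (hP : P ≠ 0) :
    ∃ C : ℝ, 0 < C ∧ ∀ f : (Fin n → ℂ) → ℂ, Differentiable ℂ f → ∀ A : ℝ,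
      (∀ z, ‖z‖ ≤ 2 → ‖eval z P * f z‖ ≤ A) → ∀ z, ‖z‖ ≤ 1 → ‖f z‖ ≤ C * A := by
  have htd : P.totalDegree ≤ m := h.totalDegree_le
  obtain ⟨v₀, hv₀⟩ : ∃ v : Fin n → ℂ, eval v P ≠ 0 := by
    by_contra hne
    push Not at hne
    exact hP (MvPolynomial.funext fun z => by rw [hne, map_zero])
  -- a vector of norm at most one
  obtain ⟨v, hv1, hv⟩ : ∃ v : Fin n → ℂ, ‖v‖ ≤ 1 ∧ eval v P ≠ 0 := by
    refine ⟨((1 / (‖v₀‖ + 1) : ℝ) : ℂ) • v₀, ?_, ?_⟩
    · rw [norm_smul, Complex.norm_real, Real.norm_of_nonneg (by positivity), div_mul_eq_mul_div,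
        one_mul, div_le_one (by positivity)]
      linarith
    · rw [eval_smul_homog h]
      refine mul_ne_zero (pow_ne_zero _ ?_) hv₀
      have : (0 : ℝ) < 1 / (‖v₀‖ + 1) := by positivity
      exact_mod_cast this.ne'
  obtain ⟨C₀, hC₀, hmal⟩ := Pool.Agent.H55.FB.mal m m
  have hvp : 0 < ‖eval v P‖ := norm_pos_iff.2 hv
  refine ⟨Real.sqrt (C₀ * (2 * Real.pi)) / ‖eval v P‖, by positivity, fun f hf A hA z hz => ?_⟩
  have hA0 : 0 ≤ A := (norm_nonneg _).trans (hA 0 (by simp))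
  have hhp : hp P m 0 v = eval v P := by
    unfold hp
    rw [MvPolynomial.eval_eq']
    refine Finset.sum_congr rfl fun s hs => ?_
    have h1 : s.degree = m := by
      have := h (mem_support_iff.1 hs)
      rw [← this, Finsupp.weight_apply, Finsupp.degree_apply, Finsupp.sum]
      simp
    rw [h1, Nat.sub_self, pow_zero, mul_one]
  have hhp1 : ∀ u, hp P m 1 u = eval u P := by
    intro u
    unfold hp
    rw [MvPolynomial.eval_eq']
    refine Finset.sum_congr rfl fun s _ => ?_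
    rw [one_pow, mul_one]
  have key := hmal (lin P m 1 z v) (natDegree_lin htd 1 z v) (fun c => f (z + c • v))
    (hf.comp ((differentiable_id.smul_const v).const_add z)) 1 one_pos
  rw [coeff_lin_top htd, hhp, one_pow, mul_one, zero_smul, add_zero] at key
  have hint : ∫ θ in (0 : ℝ)..2 * Real.pi,
      ‖(lin P m 1 z v).eval (circleMap 0 1 θ) * f (z + circleMap 0 1 θ • v)‖ ^ 2
      ≤ (2 * Real.pi) * A ^ 2 := by
    have h1 : ∀ θ : ℝ, ‖(lin P m 1 z v).eval (circleMap 0 1 θ) * f (z + circleMap 0 1 θ • v)‖ ^ 2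
        ≤ A ^ 2 := by
      intro θ
      rw [eval_lin, hhp1]
      refine pow_le_pow_left₀ (norm_nonneg _) (hA _ ?_) 2
      refine (norm_add_le _ _).trans ?_
      rw [norm_smul, norm_circleMap_one, one_mul]
      linarith
    have h2 := intervalIntegral.norm_integral_le_of_norm_le_const (a := 0) (b := 2 * Real.pi)
      (f := fun θ => ‖(lin P m 1 z v).eval (circleMap 0 1 θ) * f (z + circleMap 0 1 θ • v)‖ ^ 2)
      (C := A ^ 2) (fun θ _ => by
        rw [Real.norm_of_nonneg (sq_nonneg _)]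
        exact h1 θ)
    rw [sub_zero, abs_of_pos (by positivity : 0 < 2 * Real.pi)] at h2
    have h3 := (le_abs_self _).trans ((Real.norm_eq_abs _).symm.le.trans h2)
    linarith
  have h4 : (‖f z‖ * ‖eval v P‖) ^ 2 ≤ (Real.sqrt (C₀ * (2 * Real.pi)) * A) ^ 2 := by
    rw [mul_pow, mul_pow, Real.sq_sqrt (by positivity)]
    calc ‖f z‖ ^ 2 * ‖eval v P‖ ^ 2 ≤ C₀ * ((2 * Real.pi) * A ^ 2) :=
          key.trans (mul_le_mul_of_nonneg_left hint hC₀.le)
      _ = _ := by ring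
  have h5 := (abs_le_of_sq_le_sq' h4 (by positivity)).2
  rw [div_mul_eq_mul_div, le_div_iff₀ hvp]
  exact h5

/-- bounds for homogeneous functions -/
lemma homog_bound {g : (Fin n → ℂ) → ℂ} {k : ℕ} (hg : ∀ (c : ℂ) (z : Fin n → ℂ),
    g (c • z) = c ^ k * g z) {A : ℝ} (hA : ∀ z, ‖z‖ ≤ 1 → ‖g z‖ ≤ A) (z : Fin n → ℂ) :
    ‖g z‖ ≤ A * ‖z‖ ^ k := by
  have hA0 : 0 ≤ A := (norm_nonneg _).trans (hA 0 (by simp))
  by_cases hz : z = 0
  · subst hz
    by_cases hk : k = 0
    · subst hk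
      simpa using hA 0 (by simp)
    · have h1 := hg 0 0
      rw [smul_zero, zero_pow hk, zero_mul] at h1
      rw [h1, norm_zero]
      positivity
  · have hz' : 0 < ‖z‖ := norm_pos_iff.2 hz
    have h1 := hg (‖z‖ : ℂ) (((‖z‖⁻¹ : ℝ) : ℂ) • z)
    rw [smul_smul] at h1
    have h2 : (‖z‖ : ℂ) * ((‖z‖⁻¹ : ℝ) : ℂ) = 1 := by
      rw [← Complex.ofReal_mul, mul_inv_cancel₀ hz'.ne', Complex.ofReal_one]
    rw [h2, one_smul] at h1
    rw [h1, norm_mul, norm_pow, Complex.norm_real, norm_norm, mul_comm]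
    refine mul_le_mul_of_nonneg_right (hA _ ?_) (by positivity)
    rw [norm_smul, Complex.norm_real, norm_inv, norm_norm, inv_mul_cancel₀ hz'.ne']

/-- the estimate for one homogeneous component -/
lemma homog_comp {P : MvPolynomial (Fin n) ℂ} {m : ℕ} (h : P.IsHomogeneous m) (hP : P ≠ 0) :
    ∃ C θ : ℝ, 0 < C ∧ 0 < θ ∧ ∀ (k : ℕ) (f : Ent n) (S : ℝ),
      (∀ z, ‖z‖ ≤ 1 → ‖(HC k (QDE (star' P) (mulEnt P f))).1 z‖ ≤ S) →
      ∀ z, ‖z‖ ≤ 1 → ‖eval z P * (HC k f).1 z‖ ≤ C * θ ^ k * S := by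
  have hst : (star' P).IsHomogeneous m := h.map _
  obtain ⟨Cd, hCd, hdiv⟩ := homog_div h hP
  set H : ℝ := ∫ z : Fin n → ℂ, hw z with hH
  have hgc := gc_pos n
  have hHpos : 0 < H := by
    have h1 : gc n ≤ H := by
      unfold gc
      rw [hH]
      have hi0 : Integrable (fun z : Fin n → ℂ => hw z) := by
        have := integrable_hw (n := n) 0
        simpa using this
      refine integral_mono integrable_gw' hi0 fun z => ?_
      unfold gw hw
      apply Real.exp_le_exp.2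
      have : 0 ≤ ∑ j, ‖z j‖ ^ 2 := Finset.sum_nonneg fun j _ => by positivity
      linarith
    linarith
  refine ⟨Cd * H ^ 2 / gc n ^ 2 * 2 ^ m * Real.exp (2 * n * (m + 1)), 4 * Real.exp (2 * n),
    by positivity, by positivity, fun k f S hS => ?_⟩
  have hS0 : 0 ≤ S := (norm_nonneg _).trans (hS 0 (by simp))
  set K : ℕ := k + m with hK
  set g : Ent n := mulEnt P (HC k f) with hg
  have hgE : g.1 ∈ ExpT n := (mulExp P ⟨(HC k f).1, hcomp_mem f.2 k⟩).2
  have hhE : (HC k f).1 ∈ ExpT n := hcomp_mem f.2 k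
  have hgHC : g = HC K (mulEnt P f) := (hcomp_mul_homog h f k).symm
  have hG : QDE (star' P) g = HC k (QDE (star' P) (mulEnt P f)) := by
    rw [hgHC]
    exact QDE_HC hst k (mulEnt P f)
  have hgh : ∀ (c : ℂ) (z : Fin n → ℂ), g.1 (c • z) = c ^ K * g.1 z := by
    intro c z
    rw [hgHC]
    exact hcomp_smul (mulEnt P f).2 K c z
  have hhh : ∀ (c : ℂ) (z : Fin n → ℂ), (HC k f).1 (c • z) = c ^ k * (HC k f).1 z :=
    fun c z => hcomp_smul f.2 k c z
  have hGh : ∀ (c : ℂ) (z : Fin n → ℂ), (QDE (star' P) g).1 (c • z)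
      = c ^ k * (QDE (star' P) g).1 z := by
    intro c z
    rw [hG]
    exact hcomp_smul (QDE (star' P) (mulEnt P f)).2 k c z
  have hgcont : Continuous g.1 := Differentiable.continuous g.2
  obtain ⟨z₀, hz₀, hmax⟩ := (isCompact_closedBall (0 : Fin n → ℂ) 1).exists_isMaxOn
    ⟨0, by simp⟩ hgcont.norm.continuousOn
  set N : ℝ := ‖g.1 z₀‖ with hN
  have hz₀' : ‖z₀‖ ≤ 1 := by simpa using hz₀
  have hNmax : ∀ z, ‖z‖ ≤ 1 → ‖g.1 z‖ ≤ N := fun z hz => hmax (by simpa using hz)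
  have hN0 : 0 ≤ N := norm_nonneg _
  -- bounds
  have b1 : ∀ z, ‖z‖ ≤ 2 → ‖eval z P * (HC k f).1 z‖ ≤ N * 2 ^ K := by
    intro z hz
    refine (homog_bound hgh hNmax z).trans (mul_le_mul_of_nonneg_left ?_ hN0)
    exact pow_le_pow_left₀ (norm_nonneg _) hz K
  have b2 : ∀ z, ‖(HC k f).1 z‖ ≤ Cd * (N * 2 ^ K) * ‖z‖ ^ k :=
    homog_bound hhh (hdiv (HC k f).1 (HC k f).2 _ b1)
  have b3 : ∀ z, ‖(QDE (star' P) g).1 z‖ ≤ S * ‖z‖ ^ k :=
    homog_bound hGh (by rw [hG]; exact hS)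
  -- the Fischer identity
  have hi0 : Integrable (fun z : Fin n → ℂ => hw z) := by
    have := integrable_hw (n := n) 0
    simpa using this
  have b4 : ∫ z, ‖g.1 z‖ ^ 2 * gw z ≤ S * (Cd * (N * 2 ^ K)) * (2 ^ k * k.factorial * H) := by
    have e1 := fischer P hgE hhE
    have e2 : ∫ z, (g.1 z * (starRingEnd ℂ) (eval z P))
        * ((starRingEnd ℂ) ((HC k f).1 z) * (gw z : ℂ)) = ((∫ z, ‖g.1 z‖ ^ 2 * gw z : ℝ) : ℂ) := by
      rw [← integral_complex_ofReal]
      refine integral_congr_ae (Filter.Eventually.of_forall fun z => ?_)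
      change (g.1 z * (starRingEnd ℂ) (eval z P)) * ((starRingEnd ℂ) ((HC k f).1 z) * (gw z : ℂ))
        = ((‖g.1 z‖ ^ 2 * gw z : ℝ) : ℂ)
      have e3 : (starRingEnd ℂ) (eval z P) * (starRingEnd ℂ) ((HC k f).1 z)
          = (starRingEnd ℂ) (g.1 z) := by
        rw [← map_mul]
        rfl
      push_cast
      rw [← Complex.mul_conj', ← e3]
      ring
    rw [e2] at e1
    have e4 : ∫ z, ‖g.1 z‖ ^ 2 * gw z
        = ‖∫ ζ, (QDE (star' P) ⟨g.1, hgE.1⟩).1 ζ
          * ((starRingEnd ℂ) ((HC k f).1 ζ) * (gw ζ : ℂ))‖ := by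
      rw [e1, Complex.norm_real, Real.norm_of_nonneg]
      exact integral_nonneg fun z => mul_nonneg (by positivity) (gw_pos z).le
    rw [e4, hH, ← integral_const_mul, ← integral_const_mul]
    refine norm_integral_le_of_norm_le ((hi0.const_mul _).const_mul _)
      (Filter.Eventually.of_forall fun ζ => ?_)
    have e5 := moment_le k ζ
    rw [norm_mul, norm_mul, RCLike.norm_conj, Complex.norm_real, Real.norm_of_nonneg (gw_pos ζ).le]
    calc ‖(QDE (star' P) ⟨g.1, hgE.1⟩).1 ζ‖ * (‖(HC k f).1 ζ‖ * gw ζ)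
        ≤ (S * ‖ζ‖ ^ k) * ((Cd * (N * 2 ^ K) * ‖ζ‖ ^ k) * gw ζ) := by
          refine mul_le_mul (b3 ζ) (mul_le_mul_of_nonneg_right (b2 ζ) (gw_pos ζ).le)
            (mul_nonneg (norm_nonneg _) (gw_pos ζ).le) (by positivity)
      _ = S * (Cd * (N * 2 ^ K)) * (‖ζ‖ ^ (2 * k) * gw ζ) := by ring
      _ ≤ S * (Cd * (N * 2 ^ K)) * (2 ^ k * k.factorial * hw ζ) :=
          mul_le_mul_of_nonneg_left e5 (by positivity)
      _ = _ := by ring
  -- the value at a point
  set t : ℝ := Real.sqrt (K + 1) with ht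
  have ht2 : t ^ 2 = K + 1 := Real.sq_sqrt (by positivity)
  have b5 := gauss_point hgE ((t : ℂ) • z₀)
  have b6 : ‖g.1 ((t : ℂ) • z₀)‖ = t ^ K * N := by
    rw [hgh, norm_mul, norm_pow, Complex.norm_real, Real.norm_of_nonneg (Real.sqrt_nonneg _)]
  have b7 : ∑ j, ‖((t : ℂ) • z₀) j‖ ^ 2 ≤ n * (K + 1) := by
    calc ∑ j, ‖((t : ℂ) • z₀) j‖ ^ 2 ≤ ∑ _j : Fin n, ((K : ℝ) + 1) := by
          refine Finset.sum_le_sum fun j _ => ?_
          rw [Pi.smul_apply, norm_smul, mul_pow, Complex.norm_real,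
            Real.norm_of_nonneg (Real.sqrt_nonneg _), ht2]
          have h1 : ‖z₀ j‖ ≤ 1 := (norm_le_pi_norm z₀ j).trans hz₀'
          have h2 : ‖z₀ j‖ ^ 2 ≤ 1 := pow_le_one₀ (norm_nonneg _) h1
          have h3 : (0 : ℝ) ≤ K + 1 := by positivity
          nlinarith
      _ = _ := by
          simp only [Finset.sum_const, Finset.card_univ, Fintype.card_fin, nsmul_eq_mul]
  rw [b6] at b5
  have b8 : ((K : ℝ) + 1) ^ K * (N ^ 2 * gc n ^ 2)
      ≤ (S * (Cd * (N * 2 ^ K)) * (2 ^ k * k.factorial * H))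
        * (Real.exp (2 * (n * (K + 1))) * H) := by
    have e1 : ((K : ℝ) + 1) ^ K * (N ^ 2 * gc n ^ 2) = (t ^ K * N * gc n) ^ 2 := by
      rw [← ht2]
      ring
    rw [e1]
    refine b5.trans (mul_le_mul b4 ?_ (by positivity) (by positivity))
    refine mul_le_mul_of_nonneg_right (Real.exp_le_exp.2 ?_) hHpos.le
    linarith
  have b9 : (k.factorial : ℝ) ≤ ((K : ℝ) + 1) ^ K := by
    have e1 : (k.factorial : ℝ) ≤ (k : ℝ) ^ k := by exact_mod_cast Nat.factorial_le_pow k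
    have e2 : (k : ℝ) ^ k ≤ ((K : ℝ) + 1) ^ k := by
      refine pow_le_pow_left₀ (by positivity) ?_ k
      rw [hK]
      push_cast
      linarith [(Nat.cast_nonneg m : (0 : ℝ) ≤ m)]
    have e3 : ((K : ℝ) + 1) ^ k ≤ ((K : ℝ) + 1) ^ K := by
      refine pow_le_pow_right₀ ?_ (by omega)
      linarith [(Nat.cast_nonneg K : (0 : ℝ) ≤ K)]
    linarith
  have b10 : N ^ 2 * gc n ^ 2 ≤ (S * (Cd * (N * 2 ^ K)) * (2 ^ k * H))
        * (Real.exp (2 * (n * (K + 1))) * H) := by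
    have e1 : 0 < ((K : ℝ) + 1) ^ K := by positivity
    refine le_of_mul_le_mul_left (b8.trans ?_) e1
    calc (S * (Cd * (N * 2 ^ K)) * (2 ^ k * k.factorial * H))
        * (Real.exp (2 * (n * (K + 1))) * H)
        = (k.factorial : ℝ) * ((S * (Cd * (N * 2 ^ K)) * (2 ^ k * H))
        * (Real.exp (2 * (n * (K + 1))) * H)) := by ring
      _ ≤ _ := mul_le_mul_of_nonneg_right b9 (by positivity)
  have b11 : N ≤ Cd * H ^ 2 / gc n ^ 2 * 2 ^ m * Real.exp (2 * n * (m + 1))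
      * (4 * Real.exp (2 * n)) ^ k * S := by
    rcases hN0.eq_or_lt with h0 | h0
    · rw [← h0]
      positivity
    · have e1 : N * (N * gc n ^ 2) ≤ N * (S * (Cd * 2 ^ K) * (2 ^ k * H)
          * (Real.exp (2 * (n * (K + 1))) * H)) := by
        calc N * (N * gc n ^ 2) = N ^ 2 * gc n ^ 2 := by ring
          _ ≤ _ := b10
          _ = _ := by ring
      have e2 := le_of_mul_le_mul_left e1 h0
      have e3 : N ≤ (S * (Cd * 2 ^ K) * (2 ^ k * H) * (Real.exp (2 * (n * (K + 1))) * H))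
          / gc n ^ 2 := by
        rw [le_div_iff₀ (by positivity)]
        exact e2
      refine e3.trans (le_of_eq ?_)
      have e4 : Real.exp (2 * (n * ((K : ℝ) + 1)))
          = Real.exp (2 * n * (m + 1)) * Real.exp (2 * n) ^ k := by
        rw [← Real.exp_nat_mul, ← Real.exp_add]
        congr 1
        rw [hK]
        push_cast
        ring
      have e5 : (4 : ℝ) ^ k = 2 ^ k * 2 ^ k := by
        rw [← mul_pow]
        norm_num
      rw [e4, hK, pow_add, mul_pow, e5]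
      ring
  intro z hz
  exact (hNmax z hz).trans b11

theorem est_homog {n m : ℕ} (P : MvPolynomial (Fin n) ℂ) (h : P.IsHomogeneous m) : Est P := by
  by_cases hP : P = 0
  · subst hP
    intro ρ
    refine ⟨0, 0, fun f _ A _ z _ => ?_⟩
    rw [map_zero, zero_mul, norm_zero, zero_mul]
  obtain ⟨C, θ, hC, hθ, hmain⟩ := homog_comp h hP
  intro ρ
  set ρ₁ : ℝ := max ρ 1 with hρ₁
  have hρ1 : 1 ≤ ρ₁ := le_max_right _ _
  have hρ0 : 0 < ρ₁ := by linarith
  set r : NNReal := ⟨2 * ρ₁ * θ, by positivity⟩ with hr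
  have hrv : (r : ℝ) = 2 * ρ₁ * θ := rfl
  have hr0 : 0 < r := by
    rw [← NNReal.coe_pos, hrv]
    positivity
  refine ⟨2 * ρ₁ * θ, 2 * (C * ρ₁ ^ m), fun f hf A hA z hz => ?_⟩
  set u : Ent n := ⟨f, hf⟩ with hu
  set G : Ent n := QDE (star' P) (mulEnt P u) with hG
  have hGb : ∀ w, ‖w‖ ≤ 2 * ρ₁ * θ → ‖G.1 w‖ ≤ A := by
    intro w hw
    have h1 := hA w hw
    rw [hG, QDE_eq]
    exact h1
  have hA0 : 0 ≤ A := (norm_nonneg _).trans (hGb 0 (by rw [norm_zero]; positivity))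
  have hk : ∀ k, ‖eval z P * hcomp f k z‖ ≤ C * ρ₁ ^ m * A * (1 / 2) ^ k := by
    intro k
    have h1 : ∀ w, ‖w‖ ≤ 1 → ‖(HC k G).1 w‖ ≤ A * ((r : ℝ)⁻¹) ^ k := by
      intro w hw
      refine hcomp_bound G.2 w k hr0 fun v hv => hGb v (hv.trans ?_)
      rw [hrv]
      have : (0 : ℝ) ≤ 2 * ρ₁ * θ := by positivity
      nlinarith
    have h2 := hmain k u _ h1
    have h3 : ∀ (c : ℂ) (z : Fin n → ℂ), eval (c • z) P * hcomp f k (c • z)
        = c ^ (k + m) * (eval z P * hcomp f k z) := by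
      intro c z
      rw [eval_smul_homog h, hcomp_smul hf, pow_add]
      ring
    have h4 := homog_bound (g := fun z => eval z P * hcomp f k z) h3 h2 z
    refine h4.trans ?_
    have h5 : ‖z‖ ^ (k + m) ≤ ρ₁ ^ (k + m) :=
      pow_le_pow_left₀ (norm_nonneg _) (hz.trans (le_max_left _ _)) _
    calc C * θ ^ k * (A * ((r : ℝ)⁻¹) ^ k) * ‖z‖ ^ (k + m)
        ≤ C * θ ^ k * (A * ((r : ℝ)⁻¹) ^ k) * ρ₁ ^ (k + m) :=
          mul_le_mul_of_nonneg_left h5 (by positivity)
      _ = C * ρ₁ ^ m * A * (θ * ρ₁ * (r : ℝ)⁻¹) ^ k := by ring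
      _ = C * ρ₁ ^ m * A * (1 / 2) ^ k := by
          congr 2
          rw [hrv]
          field_simp
  have hsum : HasSum (fun k => eval z P * hcomp f k z) (eval z P * f z) :=
    (hcomp_hasSum hf z).mul_left _
  have hgeo : HasSum (fun k : ℕ => C * ρ₁ ^ m * A * (1 / 2 : ℝ) ^ k)
      (C * ρ₁ ^ m * A * (1 - 1 / 2)⁻¹) :=
    (hasSum_geometric_of_lt_one (by norm_num) (by norm_num)).mul_left _
  have hfin := hsum.norm_le_of_bounded hgeo hk
  refine hfin.trans (le_of_eq ?_)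
  norm_num
  ring

/-! ### Translations -/

/-- multiplication by an exponential -/
noncomputable def mexp (b : Fin n → ℂ) : Ent n →ₗ[ℂ] Ent n where
  toFun f := ⟨fun z => (expo b).1 z * f.1 z, (expo b).2.mul f.2⟩
  map_add' f g := by
    apply Subtype.ext; funext z
    change (expo b).1 z * (f.1 z + g.1 z) = _
    rw [mul_add]; rfl
  map_smul' c f := by
    apply Subtype.ext; funext z
    change (expo b).1 z * (c * f.1 z) = c * ((expo b).1 z * f.1 z)
    ring

lemma mexp_expo (b w : Fin n → ℂ) : mexp b (expo w) = expo (b + w) := by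
  apply Subtype.ext
  funext z
  change Complex.exp (∑ j, z j * b j) * Complex.exp (∑ j, z j * w j)
    = Complex.exp (∑ j, z j * (b + w) j)
  rw [← Complex.exp_add, ← Finset.sum_add_distrib]
  congr 1
  refine Finset.sum_congr rfl fun j _ => ?_
  rw [Pi.add_apply]
  ring

/-- conjugation of a constant coefficient operator by an exponential -/
lemma QDE_mexp (Q Q' : MvPolynomial (Fin n) ℂ) (b : Fin n → ℂ)
    (hQ : ∀ w, eval w Q' = eval (b + w) Q) (f : Ent n) :
    QDE Q (mexp b f) = mexp b (QDE Q' f) := by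
  apply Subtype.ext
  funext z
  set ev : Ent n →ₗ[ℂ] ℂ :=
    { toFun := fun f => f.1 z, map_add' := fun _ _ => rfl, map_smul' := fun _ _ => rfl } with hev
  set T : Ent n →ₗ[ℂ] ℂ := ev.comp ((QDE Q).comp (mexp b)) - ev.comp ((mexp b).comp (QDE Q'))
    with hT
  have hTa : ∀ f : Ent n, T f = (QDE Q (mexp b f)).1 z - (mexp b (QDE Q' f)).1 z := fun _ => rfl
  have hmb : ∀ R : ℝ, ∃ K : ℝ, 0 ≤ K ∧ ∀ (f : Ent n) (A : ℝ) (x : Fin n → ℂ), ‖x‖ ≤ R →
      ‖f.1 x‖ ≤ A → ‖(mexp b f).1 x‖ ≤ K * A := by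
    intro R
    obtain ⟨K, hK⟩ := (isCompact_closedBall (0 : Fin n → ℂ) R).exists_bound_of_continuousOn
      (f := (expo b).1) (Differentiable.continuous (expo b).2).continuousOn
    refine ⟨max K 0, le_max_right _ _, fun f A x hx hA => ?_⟩
    change ‖(expo b).1 x * f.1 x‖ ≤ _
    rw [norm_mul]
    exact mul_le_mul ((hK x (by simpa using hx)).trans (le_max_left _ _)) hA (norm_nonneg _)
      (le_max_right _ _)
  obtain ⟨K1, hK1, hb1⟩ := hmb (‖z‖ + Q.totalDegree)
  obtain ⟨K2, hK2, hb2⟩ := hmb ‖z‖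
  have hAF : IsAF T := by
    refine ⟨max (‖z‖ + Q.totalDegree) (‖z‖ + Q'.totalDegree),
      (∑ s ∈ Q.support, ‖Q.coeff s‖) * K1 + K2 * ∑ s ∈ Q'.support, ‖Q'.coeff s‖,
      fun f A hA => ?_⟩
    rw [hTa, add_mul]
    refine (norm_sub_le _ _).trans (add_le_add ?_ ?_)
    · rw [mul_assoc]
      exact QDE_bound Q (mexp b f) ‖z‖ (K1 * A)
        (fun w hw => hb1 f A w hw (hA w (hw.trans (le_max_left _ _)))) z le_rfl
    · rw [mul_assoc]
      exact hb2 (QDE Q' f) _ z le_rfl (QDE_bound Q' f ‖z‖ A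
        (fun w hw => hA w (hw.trans (le_max_right _ _))) z le_rfl)
  have h0 : T = 0 := by
    refine eq_zero_of_borel hAF fun w => ?_
    rw [hTa, mexp_expo, QDE_expo, QDE_expo, map_smul, mexp_expo, hQ, sub_self]
  have h2 := hTa f
  rw [h0] at h2
  exact sub_eq_zero.1 h2.symm

/-- translation of entire functions -/
noncomputable def trE (a : Fin n → ℂ) : Ent n →ₗ[ℂ] Ent n where
  toFun f := ⟨fun z => f.1 (z + a), by
    have hf : Differentiable ℂ f.1 := f.2
    exact hf.comp (differentiable_id.add_const a)⟩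
  map_add' _ _ := rfl
  map_smul' _ _ := rfl

lemma D_trE (a : Fin n → ℂ) (j : Fin n) (f : Ent n) : DE j (trE a f) = trE a (DE j f) := by
  apply Subtype.ext
  funext z
  change fderiv ℂ (fun z => f.1 (z + a)) z (Pi.single j 1) = fderiv ℂ f.1 (z + a) (Pi.single j 1)
  rw [fderiv_comp_add_right]

lemma DLE_trE (a : Fin n → ℂ) (L : List (Fin n)) : ∀ f : Ent n,
    DLE L (trE a f) = trE a (DLE L f) := by
  induction L with
  | nil => intro f; rfl
  | cons j L ih =>
    intro f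
    change DLE L (DE j (trE a f)) = trE a (DLE L (DE j f))
    rw [D_trE, ih]

lemma QDE_trE (Q : MvPolynomial (Fin n) ℂ) (a : Fin n → ℂ) (f : Ent n) :
    QDE Q (trE a f) = trE a (QDE Q f) := by
  unfold QDE
  rw [LinearMap.sum_apply, LinearMap.sum_apply, map_sum]
  refine Finset.sum_congr rfl fun s _ => ?_
  rw [LinearMap.smul_apply, LinearMap.smul_apply, map_smul, DLE_trE]

theorem est_translate {n : ℕ} (P P' : MvPolynomial (Fin n) ℂ) (a : Fin n → ℂ)
    (hP : ∀ z, eval z P' = eval (z + a) P) (h : Est P) : Est P' := by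
  intro ρ
  obtain ⟨ρ', C, hE⟩ := h (ρ + ‖a‖)
  -- bounds for the exponential and its inverse
  set b : Fin n → ℂ := cj a with hb
  have hbd : ∀ (c : Fin n → ℂ) (R : ℝ), ∃ K : ℝ, 0 < K ∧ ∀ x : Fin n → ℂ, ‖x‖ ≤ R →
      ‖(expo c).1 x‖ ≤ K := by
    intro c R
    obtain ⟨K, hK⟩ := (isCompact_closedBall (0 : Fin n → ℂ) R).exists_bound_of_continuousOn
      (f := (expo c).1) (Differentiable.continuous (expo c).2).continuousOn
    exact ⟨max K 1, by positivity, fun x hx => (hK x (by simpa using hx)).trans (le_max_left _ _)⟩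
  obtain ⟨K1, hK1, hb1⟩ := hbd b ρ'
  obtain ⟨K2, hK2, hb2⟩ := hbd (-b) (ρ + ‖a‖)
  refine ⟨ρ' + ‖a‖, K2 * (C * K1), fun f hf A hA z hz => ?_⟩
  set u : Ent n := ⟨f, hf⟩ with hu
  -- `F = e^{<b, .>} f (. - a)`
  set F : Ent n := mexp b (trE (-a) u) with hF
  have hPF : mulEnt P F = mexp b (trE (-a) (mulEnt P' u)) := by
    apply Subtype.ext
    funext x
    change eval x P * ((expo b).1 x * f (x + -a)) = (expo b).1 x * (eval (x + -a) P' * f (x + -a))
    rw [hP, neg_add_cancel_right]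
    ring
  have hQ : ∀ w, eval w (star' P') = eval (b + w) (star' P) := by
    intro w
    have h1 : cj w + a = cj (b + w) := by
      funext j
      simp [cj, hb, add_comm]
    rw [eval_star', eval_star', hP, h1]
  have key := hE F.1 F.2 (K1 * A) (fun x hx => by
    have e1 : QD (star' P) 1 (fun z => eval z P * F.1 z) x
        = (expo b).1 x * QD (star' P') 1 (fun z => eval z P' * f z) (x + -a) := by
      have e2 := (QDE_eq (star' P) (mulEnt P F) x).symm
      change QD (star' P) 1 (fun z => eval z P * F.1 z) x = (QDE (star' P) (mulEnt P F)).1 x at e2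
      rw [e2, hPF, QDE_mexp (star' P) (star' P') b hQ, QDE_trE]
      change (expo b).1 x * (QDE (star' P') (mulEnt P' u)).1 (x + -a) = _
      rw [QDE_eq]
      rfl
    rw [e1, norm_mul]
    refine mul_le_mul (hb1 x hx) (hA _ ?_) (norm_nonneg _) hK1.le
    refine (norm_add_le _ _).trans ?_
    rw [norm_neg]
    linarith) (z + a) ((norm_add_le _ _).trans (by linarith))
  have e3 : eval z P' * f z
      = (expo (-b)).1 (z + a) * (eval (z + a) P * F.1 (z + a)) := by
    change _ = (expo (-b)).1 (z + a) * (eval (z + a) P * ((expo b).1 (z + a) * f (z + a + -a)))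
    rw [add_neg_cancel_right, hP]
    have e4 : (expo (-b)).1 (z + a) * (expo b).1 (z + a) = 1 := by
      have := congrFun (congrArg Subtype.val (mexp_expo (-b) b)) (z + a)
      change (expo (-b)).1 (z + a) * (expo b).1 (z + a) = (expo (-b + b)).1 (z + a) at this
      rw [this, neg_add_cancel]
      change Complex.exp (∑ j, (z + a) j * (0 : Fin n → ℂ) j) = 1
      simp
    calc eval (z + a) P * f z = ((expo (-b)).1 (z + a) * (expo b).1 (z + a))
          * (eval (z + a) P * f z) := by rw [e4, one_mul]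
      _ = _ := by ring
  rw [e3, norm_mul]
  calc ‖(expo (-b)).1 (z + a)‖ * ‖eval (z + a) P * F.1 (z + a)‖
      ≤ K2 * (C * (K1 * A)) :=
        mul_le_mul (hb2 _ ((norm_add_le _ _).trans (by linarith))) key (norm_nonneg _) hK2.le
    _ = _ := by ring

end Pool.Agent.H60.FB
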