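import Pool.Agent.H60.FB.Defs
import Pool.Agent.H77.FB.Bridge

/-!
Module F1 of MP_6e521b_an: every entire function of exponential type is the Fourier-Borel
transform of an analytic functional (helper37).
-/

open MvPolynomial MeasureTheory Pool.Agent.H77.FB

namespace Pool.Agent.H60.FB

variable {n : ℕ}

/-- The integrand of the functional. -/
noncomputable def bj (s : (Fin n → ℂ) → ℂ) (R : ℝ) (f : (Fin n → ℂ) → ℂ)
    (p : ℝ × (Fin n → ℂ)) : ℂ :=
  s (circleMap 0 (‖p.2‖ / R) p.1 • p.2) * f ((circleMap 0 (‖p.2‖ / R) p.1)⁻¹ • cj p.2)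
    * (gw p.2 : ℂ)

lemma measurable_bj {s f : (Fin n → ℂ) → ℂ} (hs : Continuous s) (hf : Continuous f) (R : ℝ) :
    Measurable (bj s R f) := by
  have h1 : Measurable (fun p : ℝ × (Fin n → ℂ) => circleMap 0 (‖p.2‖ / R) p.1) := by
    have : Continuous (fun p : ℝ × (Fin n → ℂ) => circleMap 0 (‖p.2‖ / R) p.1) := by
      unfold circleMap
      fun_prop
    exact this.measurable
  have h2 : Measurable (fun p : ℝ × (Fin n → ℂ) => cj p.2) :=
    (continuous_cj.comp continuous_snd).measurable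
  unfold bj
  refine (Measurable.mul ?_ ?_).mul ?_
  · exact hs.measurable.comp (h1.smul measurable_snd)
  · exact hf.measurable.comp (h1.inv.smul h2)
  · exact (Complex.continuous_ofReal.comp (continuous_gw.comp continuous_snd)).measurable

lemma integrable_half : Integrable (fun z : Fin n → ℂ => Real.exp (-(1 / 2) * ∑ j, ‖z j‖ ^ 2)) := by
  have h1 : Integrable (fun z : Fin n → ℂ => gw z) := integrable_gw'
  have h2 := h1.comp_smul (R := (Real.sqrt 2)⁻¹) (by positivity)
  refine h2.congr (Filter.Eventually.of_forall fun z => ?_)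
  change gw ((Real.sqrt 2)⁻¹ • z) = _
  unfold gw
  congr 1
  rw [Finset.mul_sum, ← Finset.sum_neg_distrib]
  refine Finset.sum_congr rfl fun j _ => ?_
  rw [Pi.smul_apply, norm_smul, mul_pow, norm_inv, inv_pow, Real.norm_of_nonneg (by positivity),
    Real.sq_sqrt (by norm_num)]
  ring

lemma sq_norm_le_sum (z : Fin n → ℂ) : ‖z‖ ^ 2 ≤ ∑ j, ‖z j‖ ^ 2 := by
  have h0 : 0 ≤ ∑ j, ‖z j‖ ^ 2 := Finset.sum_nonneg fun j _ => by positivity
  have h1 : ‖z‖ ≤ Real.sqrt (∑ j, ‖z j‖ ^ 2) := by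
    refine (pi_norm_le_iff_of_nonneg (Real.sqrt_nonneg _)).2 fun j => ?_
    refine Real.le_sqrt_of_sq_le ?_
    exact Finset.single_le_sum (f := fun j => ‖z j‖ ^ 2) (fun j _ => by positivity)
      (Finset.mem_univ j)
  calc ‖z‖ ^ 2 ≤ Real.sqrt (∑ j, ‖z j‖ ^ 2) ^ 2 := pow_le_pow_left₀ (norm_nonneg _) h1 2
    _ = _ := Real.sq_sqrt h0

lemma norm_cm {R : ℝ} (hR : 0 < R) (z : Fin n → ℂ) (θ : ℝ) :
    ‖circleMap 0 (‖z‖ / R) θ‖ = ‖z‖ / R := by
  rw [norm_circleMap_zero]
  exact abs_of_nonneg (by positivity)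

lemma norm_bj_le {s f : (Fin n → ℂ) → ℂ} {C B R A : ℝ} (hC : 0 ≤ C) (hR : 0 < R)
    (hBR : B ≤ R / 2)
    (hs : ∀ z, ‖s z‖ ≤ C * Real.exp (B * ‖z‖)) (hf : ∀ z, ‖z‖ ≤ R → ‖f z‖ ≤ A)
    (p : ℝ × (Fin n → ℂ)) :
    ‖bj s R f p‖ ≤ C * A * Real.exp (-(1 / 2) * ∑ j, ‖p.2 j‖ ^ 2) := by
  obtain ⟨θ, z⟩ := p
  have hA : 0 ≤ A := (norm_nonneg _).trans (hf 0 (by rw [norm_zero]; exact hR.le))
  unfold bj
  simp only
  rw [norm_mul, norm_mul, Complex.norm_real, Real.norm_of_nonneg (gw_pos z).le]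
  have h1 : ‖s (circleMap 0 (‖z‖ / R) θ • z)‖ ≤ C * Real.exp (1 / 2 * ∑ j, ‖z j‖ ^ 2) := by
    refine (hs _).trans (mul_le_mul_of_nonneg_left (Real.exp_le_exp.2 ?_) hC)
    rw [norm_smul, norm_cm hR]
    have e1 := sq_norm_le_sum z
    have e2 : B * (‖z‖ / R * ‖z‖) = (B / R) * ‖z‖ ^ 2 := by ring
    have e3 : B / R ≤ 1 / 2 := by
      rw [div_le_iff₀ hR]; linarith
    rw [e2]
    exact mul_le_mul e3 e1 (sq_nonneg _) (by norm_num)
  have h2 : ‖f ((circleMap 0 (‖z‖ / R) θ)⁻¹ • cj z)‖ ≤ A := by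
    apply hf
    rw [norm_smul, norm_inv, norm_cm hR, norm_cj]
    by_cases hz : ‖z‖ = 0
    · rw [hz, mul_zero]; exact hR.le
    · rw [inv_div, div_mul_cancel₀ _ hz]
  calc _ ≤ (C * Real.exp (1 / 2 * ∑ j, ‖z j‖ ^ 2)) * A * gw z := by
        refine mul_le_mul_of_nonneg_right ?_ (gw_pos z).le
        exact mul_le_mul h1 h2 (norm_nonneg _) (by positivity)
    _ = C * A * (Real.exp (1 / 2 * ∑ j, ‖z j‖ ^ 2) * gw z) := by ring
    _ = _ := by
        unfold gw
        rw [← Real.exp_add]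
        congr 2
        ring

/-- The measure on the product of the circle and of `ℂ^n`. -/
noncomputable def mu (n : ℕ) : Measure (ℝ × (Fin n → ℂ)) :=
  (volume.restrict (Set.Ioc (0 : ℝ) (2 * Real.pi))).prod volume

lemma integrable_bd : Integrable (fun p : ℝ × (Fin n → ℂ) =>
    Real.exp (-(1 / 2) * ∑ j, ‖p.2 j‖ ^ 2)) (mu n) :=
  (integrable_half (n := n)).comp_snd (volume.restrict (Set.Ioc (0 : ℝ) (2 * Real.pi)))

lemma integrable_bj {s f : (Fin n → ℂ) → ℂ} {C B R : ℝ} (hC : 0 ≤ C) (hR : 0 < R)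
    (hBR : B ≤ R / 2) (hsc : Continuous s)
    (hs : ∀ z, ‖s z‖ ≤ C * Real.exp (B * ‖z‖)) (hf : Continuous f) :
    Integrable (bj s R f) (mu n) := by
  obtain ⟨A, hA⟩ := (isCompact_closedBall (0 : Fin n → ℂ) R).exists_bound_of_continuousOn
    hf.continuousOn
  refine (integrable_bd.const_mul (C * A)).mono' (measurable_bj hsc hf R).aestronglyMeasurable
    (Filter.Eventually.of_forall fun p => ?_)
  exact norm_bj_le hC hR hBR hs (fun z hz => hA z (mem_closedBall_zero_iff.2 hz)) p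

/-- The circle averages do not depend on the radius. -/
lemma avg_radius {s : (Fin n → ℂ) → ℂ} (hs : Differentiable ℂ s) {f : (Fin n → ℂ) → ℂ}
    (hf : Differentiable ℂ f) (z : Fin n → ℂ) {t : ℝ} (ht : 0 < t) :
    ∫ θ in (0 : ℝ)..2 * Real.pi, s (circleMap 0 t θ • z) * f ((circleMap 0 t θ)⁻¹ • cj z)
      = ∫ θ in (0 : ℝ)..2 * Real.pi, s (circleMap 0 1 θ • z) * f ((circleMap 0 1 θ)⁻¹ • cj z) := by
  set h : ℂ → ℂ := fun w => s (w • z) * f (w⁻¹ • cj z) with hh
  have hd : ∀ w : ℂ, w ≠ 0 → DifferentiableAt ℂ h w := by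
    intro w hw
    have h1 : DifferentiableAt ℂ (fun w : ℂ => w • z) w := differentiableAt_id.smul_const z
    have h2 : DifferentiableAt ℂ (fun w : ℂ => w⁻¹ • cj z) w :=
      (differentiableAt_inv hw).smul_const (cj z)
    exact ((hs _).comp w h1).mul ((hf _).comp w h2)
  have key : ∀ r R : ℝ, 0 < r → r ≤ R →
      Real.circleAverage h 0 R = Real.circleAverage h 0 r := by
    intro r R hr hrR
    rw [Real.circleAverage_eq_circleIntegral (by linarith [hr.trans_le hrR] : R ≠ 0),
      Real.circleAverage_eq_circleIntegral hr.ne']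
    congr 1
    refine Complex.circleIntegral_sub_center_inv_smul_eq_of_differentiable_on_annulus_off_countable
      hr hrR Set.countable_empty ?_ ?_
    · intro w hw
      have hw0 : w ≠ 0 := by
        rintro rfl
        exact hw.2 (Metric.mem_ball_self hr)
      exact (hd w hw0).continuousAt.continuousWithinAt
    · intro w hw
      have hw0 : w ≠ 0 := by
        rintro rfl
        exact hw.1.2 (Metric.mem_closedBall_self hr.le)
      exact hd w hw0
  have h1 : Real.circleAverage h 0 t = Real.circleAverage h 0 1 := by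
    rcases le_total t 1 with h2 | h2
    · exact (key t 1 ht h2).symm
    · exact key 1 t one_pos h2
  unfold Real.circleAverage at h1
  have h3 := congrArg (fun x : ℂ => (2 * Real.pi : ℝ) • x) h1
  simp only [smul_smul] at h3
  rw [mul_inv_cancel₀ (by positivity), one_smul, one_smul] at h3
  exact h3

/-- The value of the functional at an exponential. -/
lemma bj_expo {s : (Fin n → ℂ) → ℂ} (hs : Differentiable ℂ s) {C B R : ℝ} (hC : 0 < C)
    (hR : 0 < R) (hBR : B ≤ R / 2) (hB : 0 < B)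
    (hsb : ∀ z, ‖s z‖ ≤ C * Real.exp (B * ‖z‖)) (ζ : Fin n → ℂ) :
    ∫ p, bj s R (expo ζ).1 p ∂(mu n) = 2 * Real.pi * (s ζ * gc n) := by
  have hf : Differentiable ℂ (expo ζ).1 := (expo ζ).2
  have hi := integrable_bj hC.le hR hBR hs.continuous hsb hf.continuous
  set G : ℝ → (Fin n → ℂ) → ℂ := fun θ z =>
    s (circleMap 0 1 θ • z) * (expo ζ).1 ((circleMap 0 1 θ)⁻¹ • cj z) * (gw z : ℂ) with hG
  have h8 : Integrable (Function.uncurry G) (mu n) := by
    have h9 : Integrable (fun z : Fin n → ℂ => C * (Real.exp ((B + n * ‖ζ‖) * ‖z‖) * gw z)) :=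
      (integrable_gw _).const_mul C
    have h10 := h9.comp_snd (volume.restrict (Set.Ioc (0 : ℝ) (2 * Real.pi)))
    refine h10.mono' ?_ (Filter.Eventually.of_forall ?_)
    · have hcm : Continuous (fun p : ℝ × (Fin n → ℂ) => circleMap 0 1 p.1) :=
        (continuous_circleMap 0 1).comp continuous_fst
      have hne : ∀ p : ℝ × (Fin n → ℂ), circleMap 0 1 p.1 ≠ 0 := fun p =>
        circleMap_ne_center one_ne_zero
      apply Continuous.aestronglyMeasurable
      refine Continuous.mul (Continuous.mul (hs.continuous.comp (hcm.smul continuous_snd))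
        (hf.continuous.comp ((hcm.inv₀ hne).smul (continuous_cj.comp continuous_snd)))) ?_
      exact Complex.continuous_ofReal.comp (continuous_gw.comp continuous_snd)
    · rintro ⟨θ, z⟩
      change ‖s (circleMap 0 1 θ • z) * (expo ζ).1 ((circleMap 0 1 θ)⁻¹ • cj z) * (gw z : ℂ)‖
        ≤ C * (Real.exp ((B + n * ‖ζ‖) * ‖z‖) * gw z)
      rw [norm_mul, norm_mul, Complex.norm_real, Real.norm_of_nonneg (gw_pos z).le]
      have h1 : ‖s (circleMap 0 1 θ • z)‖ ≤ C * Real.exp (B * ‖z‖) := by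
        refine (hsb _).trans_eq ?_
        rw [norm_smul]; simp
      have h2 : ‖(expo ζ).1 ((circleMap 0 1 θ)⁻¹ • cj z)‖ ≤ Real.exp (n * ‖z‖ * ‖ζ‖) := by
        refine (norm_expo_le ζ _).trans_eq ?_
        rw [norm_smul, norm_cj]; simp
      calc _ ≤ (C * Real.exp (B * ‖z‖)) * Real.exp (n * ‖z‖ * ‖ζ‖) * gw z := by
            refine mul_le_mul_of_nonneg_right ?_ (gw_pos z).le
            exact mul_le_mul h1 h2 (norm_nonneg _) (by positivity)
        _ = C * (Real.exp (B * ‖z‖) * Real.exp (n * ‖z‖ * ‖ζ‖) * gw z) := by ring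
        _ = _ := by rw [← Real.exp_add]; ring_nf
  -- the two integrals agree
  have e1 : ∫ p, bj s R (expo ζ).1 p ∂(mu n) = ∫ p, Function.uncurry G p ∂(mu n) := by
    unfold mu at hi h8 ⊢
    rw [integral_prod_symm _ hi, integral_prod_symm _ h8]
    refine integral_congr_ae (Filter.Eventually.of_forall fun z => ?_)
    change ∫ θ in Set.Ioc (0 : ℝ) (2 * Real.pi), bj s R (expo ζ).1 (θ, z)
      = ∫ θ in Set.Ioc (0 : ℝ) (2 * Real.pi), G θ z
    unfold bj
    rw [hG]
    simp only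
    rw [integral_mul_const, integral_mul_const]
    congr 1
    rw [← intervalIntegral.integral_of_le (by positivity),
      ← intervalIntegral.integral_of_le (by positivity)]
    by_cases hz : z = 0
    · subst hz
      have hcj : cj (0 : Fin n → ℂ) = 0 := by funext j; simp [cj]
      simp only [hcj, smul_zero]
    · exact avg_radius hs hf z (div_pos (norm_pos_iff.2 hz) hR)
  rw [e1]
  unfold mu at h8 ⊢
  rw [integral_prod _ h8]
  have h1 : ∀ θ, ∫ z, G θ z = s ζ * gc n := by
    intro θ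
    have hm := rot_preserving (n := n) (Circle.exp θ)
    have h3 : ∀ z : Fin n → ℂ, (fun j => (Circle.exp θ : ℂ) * z j) = circleMap 0 1 θ • z := by
      intro z
      funext j
      simp [circleMap, Circle.coe_exp]
    set K : (Fin n → ℂ) → ℂ := fun z => (s z * (gw z : ℂ)) * (expo (cj z)).1 ζ with hK
    have hKc : Continuous K := by
      refine (hs.continuous.mul (Complex.continuous_ofReal.comp continuous_gw)).mul ?_
      change Continuous fun z : Fin n → ℂ => Complex.exp (∑ j, ζ j * cj z j)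
      refine Complex.continuous_exp.comp (continuous_finsetSum _ fun j _ => ?_)
      exact continuous_const.mul ((continuous_apply j).comp continuous_cj)
    have h2 : ∫ z, K z = ∫ z : Fin n → ℂ, K (fun j => (Circle.exp θ : ℂ) * z j) := by
      conv_lhs => rw [← hm.map_eq]
      rw [integral_map hm.aemeasurable hKc.aestronglyMeasurable]
    rw [← gauss_repr (f := s) ⟨hs, C, hC, B, hB, hsb⟩ ζ]
    change _ = ∫ z, K z
    rw [h2]
    refine integral_congr_ae (Filter.Eventually.of_forall fun z => ?_)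
    change G θ z = K (fun j => (Circle.exp θ : ℂ) * z j)
    rw [h3, hG, hK]
    simp only
    have h4 : gw (circleMap 0 1 θ • z) = gw z := by
      unfold gw; simp
    have h5 : (expo ζ).1 ((circleMap 0 1 θ)⁻¹ • cj z)
        = (expo (cj (circleMap 0 1 θ • z))).1 ζ := by
      change Complex.exp (∑ j, ((circleMap 0 1 θ)⁻¹ • cj z) j * ζ j)
        = Complex.exp (∑ j, ζ j * cj (circleMap 0 1 θ • z) j)
      congr 1
      refine Finset.sum_congr rfl fun j _ => ?_
      have h6 : (circleMap 0 1 θ)⁻¹ = (starRingEnd ℂ) (circleMap 0 1 θ) := by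
        rw [Complex.inv_def, Complex.normSq_eq_norm_sq]
        simp
      simp only [Pi.smul_apply, smul_eq_mul, cj, map_mul]
      rw [h6]
      ring
    rw [h4, h5]
    ring
  have h2 : ∀ θ, ∫ z, Function.uncurry G (θ, z) = s ζ * gc n := h1
  simp only [h2]
  rw [setIntegral_const]
  simp [Real.pi_pos.le, Measure.real]

/-- Every entire function of exponential type is the Fourier-Borel transform of an analytic
functional. -/
theorem borel_repr {s : (Fin n → ℂ) → ℂ} (hs : ExpType s) :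
    ∃ S : ((Fin n → ℂ) → ℂ) → ℂ, AnFunctional S ∧ ∀ z, fourierBorel S z = s z := by
  obtain ⟨hd, C, hC, B, hB, hb⟩ := hs
  set R := 2 * B with hR
  have hR0 : 0 < R := by positivity
  have hBR : B ≤ R / 2 := by rw [hR]; linarith
  have hgc : (gc n : ℂ) ≠ 0 := by exact_mod_cast (gc_pos n).ne'
  have hπ : (2 * Real.pi : ℂ) ≠ 0 := by simp [Real.pi_ne_zero]
  set k : ℂ := (2 * Real.pi : ℂ)⁻¹ * (gc n : ℂ)⁻¹ with hk
  refine ⟨fun f => k * ∫ p, bj s R f p ∂(mu n), ⟨?_, ?_, ?_⟩, ?_⟩
  · intro f g hf hg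
    have h1 := integrable_bj hC.le hR0 hBR hd.continuous hb hf.continuous
    have h2 := integrable_bj hC.le hR0 hBR hd.continuous hb hg.continuous
    have h3 : ∀ p, bj s R (fun z => f z + g z) p = bj s R f p + bj s R g p := by
      intro p
      unfold bj
      ring
    simp only [h3]
    rw [integral_add h1 h2, mul_add]
  · intro c f _
    have h1 : ∀ p, bj s R (fun z => c * f z) p = c * bj s R f p := by
      intro p
      unfold bj
      ring
    simp only [h1]
    rw [integral_const_mul]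
    ring
  · refine ⟨R, ‖k‖ * (C * ∫ p : ℝ × (Fin n → ℂ),
      Real.exp (-(1 / 2) * ∑ j, ‖p.2 j‖ ^ 2) ∂(mu n)), fun f hf A hA => ?_⟩
    rw [norm_mul, mul_assoc]
    refine mul_le_mul_of_nonneg_left ?_ (norm_nonneg _)
    calc ‖∫ p, bj s R f p ∂(mu n)‖ ≤ ∫ p, C * A * Real.exp (-(1 / 2) * ∑ j, ‖p.2 j‖ ^ 2) ∂(mu n) :=
          norm_integral_le_of_norm_le (integrable_bd.const_mul (C * A))
            (Filter.Eventually.of_forall fun p => norm_bj_le hC.le hR0 hBR hb hA p)
      _ = _ := by rw [integral_const_mul]; ring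
  · intro z
    have h1 := bj_expo hd hC hR0 hBR hB hb z
    change k * ∫ p, bj s R (expo z).1 p ∂(mu n) = s z
    rw [h1, hk]
    field_simp

end Pool.Agent.H60.FB
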