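import Pool.Agent.H60.FB.Ident
import Pool.Agent.H60.FB.Hp

/-!
Module E of MP_6e521b_an (surjectivity of `Φ_P` for a nonsingular leading form): the a priori
estimate from the identity, the weight and the Malgrange type estimate (helper37).
-/

open MvPolynomial MeasureTheory Pool.Agent.H77.FB
open scoped ContDiff

namespace Pool.Agent.H60.FB

variable {n : ℕ}

/-! ### Scaling -/

lemma D_scale {f : (Fin n → ℂ) → ℂ} (hf : Differentiable ℂ f) (a c : ℂ) (j : Fin n) :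
    D j (fun z => a * f (c • z)) = fun z => a * c * D j f (c • z) := by
  funext z
  have h1 : HasFDerivAt (fun z : Fin n → ℂ => c • z) (c • ContinuousLinearMap.id ℂ (Fin n → ℂ)) z :=
    (hasFDerivAt_id z).const_smul c
  have h2 := ((hf (c • z)).hasFDerivAt.comp z h1).const_mul a
  have h3 : fderiv ℂ (fun z => a * f (c • z)) z
      = a • (fderiv ℂ f (c • z)).comp (c • ContinuousLinearMap.id ℂ (Fin n → ℂ)) := h2.fderiv
  unfold D
  rw [h3]
  simp only [smul_apply, smul_eq_mul, ContinuousLinearMap.comp_apply, ContinuousLinearMap.id_apply,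
    map_smul]
  ring

lemma DL_scale (L : List (Fin n)) : ∀ {f : (Fin n → ℂ) → ℂ}, Differentiable ℂ f → ∀ a c : ℂ,
    ∀ z, DL L (fun z => a * f (c • z)) z = a * c ^ L.length * DL L f (c • z) := by
  induction L with
  | nil => intro f _ a c z; simp [DL]
  | cons j L ih =>
    intro f hf a c z
    change DL L (D j (fun z => a * f (c • z))) z = _
    rw [D_scale hf, ih (differentiable_D hf j)]
    simp only [List.length_cons, DL]
    ring

lemma QD_scale {f : (Fin n → ℂ) → ℂ} (hf : Differentiable ℂ f) (Q : MvPolynomial (Fin n) ℂ)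
    (a : ℂ) {ε : ℝ} (hε : ε ≠ 0) (z : Fin n → ℂ) :
    QD Q ε (fun z => a * f ((ε : ℂ)⁻¹ • z)) z = a * QD Q 1 f ((ε : ℂ)⁻¹ • z) := by
  have hε' : (ε : ℂ) ≠ 0 := by exact_mod_cast hε
  unfold QD
  rw [Finset.mul_sum]
  refine Finset.sum_congr rfl fun s _ => ?_
  rw [DL_scale _ hf, length_ls]
  have h1 : (ε : ℂ) ^ s.degree * ((ε : ℂ)⁻¹) ^ s.degree = 1 := by
    rw [← mul_pow, mul_inv_cancel₀ hε', one_pow]
  push_cast
  rw [one_pow]
  linear_combination (Q.coeff s * a * DL (ls s) f ((ε : ℂ)⁻¹ • z)) * h1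

lemma hp_one (P : MvPolynomial (Fin n) ℂ) (m : ℕ) (u : Fin n → ℂ) :
    hp P m 1 u = eval u P := by
  rw [MvPolynomial.eval_eq']
  unfold hp
  refine Finset.sum_congr rfl fun s _ => ?_
  rw [one_pow, mul_one]

lemma hp_eval {P : MvPolynomial (Fin n) ℂ} {m : ℕ} (hP : P.totalDegree ≤ m) {ε : ℝ} (hε : ε ≠ 0)
    (ζ : Fin n → ℂ) : hp P m ε ζ = (ε : ℂ) ^ m * eval ((ε : ℂ)⁻¹ • ζ) P := by
  have hε' : (ε : ℂ) ≠ 0 := by exact_mod_cast hε
  have h := hp_smul hP (ε : ℂ) 1 ((ε : ℂ)⁻¹ • ζ)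
  rw [mul_one, smul_smul, mul_inv_cancel₀ hε', one_smul, hp_one] at h
  exact h

lemma continuous_QD {f : (Fin n → ℂ) → ℂ} (hf : Differentiable ℂ f) (Q : MvPolynomial (Fin n) ℂ)
    (ε : ℝ) : Continuous (QD Q ε f) := by
  unfold QD
  refine continuous_finsetSum _ fun s _ => ?_
  exact continuous_const.mul (differentiable_DL hf _).continuous

/-! ### The mean value property on balls -/

lemma ball_mean {H : (Fin n → ℂ) → ℂ} (hd : Differentiable ℂ H) (r : ℝ) :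
    ∫ w in Metric.closedBall (0 : Fin n → ℂ) r, H w
      = volume.real (Metric.closedBall (0 : Fin n → ℂ) r) * H 0 := by
  set B := Metric.closedBall (0 : Fin n → ℂ) r with hB
  have hBm : MeasurableSet B := Metric.isClosed_closedBall.measurableSet
  have hBc : IsCompact B := isCompact_closedBall 0 r
  set G : ℝ → (Fin n → ℂ) → ℂ := fun θ w => H (circleMap 0 1 θ • w) with hG
  have hHc : Continuous H := hd.continuous
  have hGc : Continuous (Function.uncurry G) := by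
    refine hHc.comp ?_
    exact ((continuous_circleMap 0 1).comp continuous_fst).smul continuous_snd
  -- each rotated integral is the same
  have h1 : ∀ θ, ∫ w in B, G θ w = ∫ w in B, H w := by
    intro θ
    have hm := rot_preserving (n := n) (Circle.exp θ)
    have h3 : ∀ z : Fin n → ℂ, (fun j => (Circle.exp θ : ℂ) * z j) = circleMap 0 1 θ • z := by
      intro z
      funext j
      simp [circleMap, Circle.coe_exp]
    have hpre : (fun z : Fin n → ℂ => fun j => (Circle.exp θ : ℂ) * z j) ⁻¹' B = B := by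
      ext z
      rw [Set.mem_preimage, h3, hB, mem_closedBall_zero_iff, mem_closedBall_zero_iff, norm_smul]
      simp
    have h2 : ∫ w in B, H w
        = ∫ w in (fun z : Fin n → ℂ => fun j => (Circle.exp θ : ℂ) * z j) ⁻¹' B,
          H (fun j => (Circle.exp θ : ℂ) * w j) := by
      rw [← setIntegral_map (μ := volume) hBm hHc.aestronglyMeasurable hm.aemeasurable, hm.map_eq]
    rw [h2, hpre]
    refine setIntegral_congr_fun hBm fun z _ => ?_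
    change H (circleMap 0 1 θ • z) = H (fun j => (Circle.exp θ : ℂ) * z j)
    rw [h3]
  -- the averages over circles
  have h5 : ∀ w : Fin n → ℂ, ∫ θ in (0 : ℝ)..2 * Real.pi, G θ w = 2 * Real.pi * H 0 := by
    intro w
    have h6 : DiffContOnCl ℂ (fun c : ℂ => H (c • w)) (Metric.ball 0 |1|) := by
      apply Differentiable.diffContOnCl
      exact hd.comp (differentiable_id.smul_const w)
    have h7 := h6.circleAverage
    rw [Real.circleAverage, inv_smul_eq_iff₀ (by positivity)] at h7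
    rw [hG]
    simp only
    rw [h7, zero_smul]
    simp
  have h8 : Integrable (Function.uncurry G)
      ((volume.restrict (Set.Ioc (0 : ℝ) (2 * Real.pi))).prod (volume.restrict B)) := by
    rw [Measure.prod_restrict]
    have h9 : IntegrableOn (Function.uncurry G) (Set.Icc (0 : ℝ) (2 * Real.pi) ×ˢ B)
        (volume.prod volume) :=
      hGc.continuousOn.integrableOn_compact (isCompact_Icc.prod hBc)
    exact h9.mono_set (Set.prod_mono Set.Ioc_subset_Icc_self le_rfl)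
  have h11 := integral_integral_swap h8
  have h12 : ∫ θ in Set.Ioc (0 : ℝ) (2 * Real.pi), (∫ w in B, G θ w)
      = 2 * Real.pi * ∫ w in B, H w := by
    simp only [h1]
    rw [setIntegral_const]
    simp [Real.pi_pos.le, Measure.real]
  have h13 : ∫ w in B, (∫ θ in Set.Ioc (0 : ℝ) (2 * Real.pi), G θ w)
      = 2 * Real.pi * (volume.real B * H 0) := by
    have h14 : ∀ w, ∫ θ in Set.Ioc (0 : ℝ) (2 * Real.pi), G θ w = 2 * Real.pi * H 0 := by
      intro w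
      rw [← h5 w, intervalIntegral.integral_of_le (by positivity)]
    simp only [h14]
    rw [setIntegral_const]
    rw [Complex.real_smul]
    ring
  rw [h12, h13] at h11
  have h15 : (2 * Real.pi : ℂ) ≠ 0 := by
    simp [Real.pi_ne_zero]
  exact mul_left_cancel₀ h15 h11

lemma norm_sq_le_ball {G : (Fin n → ℂ) → ℂ} (hG : Differentiable ℂ G) (ζ : Fin n → ℂ) (r : ℝ) :
    volume.real (Metric.closedBall (0 : Fin n → ℂ) r) * ‖G ζ‖ ^ 2
      ≤ ∫ w in Metric.closedBall (0 : Fin n → ℂ) r, ‖G (ζ + w)‖ ^ 2 := by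
  have h1 : Differentiable ℂ (fun w : Fin n → ℂ => G (ζ + w) ^ 2) :=
    (hG.comp (differentiable_id.const_add ζ)).pow 2
  have h2 := ball_mean h1 r
  have h3 : ‖∫ w in Metric.closedBall (0 : Fin n → ℂ) r, G (ζ + w) ^ 2‖
      ≤ ∫ w in Metric.closedBall (0 : Fin n → ℂ) r, ‖G (ζ + w) ^ 2‖ :=
    norm_integral_le_integral_norm _
  rw [h2, norm_mul, add_zero, norm_pow, Complex.norm_real,
    Real.norm_of_nonneg measureReal_nonneg] at h3
  simpa only [norm_pow] using h3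

/-! ### The integral estimate -/

lemma continuous_GG (P : MvPolynomial (Fin n) ℂ) (m : ℕ) (ε : ℝ) {g : (Fin n → ℂ) → ℝ}
    (hg : Continuous g) : Continuous (fun ζ => GG P m ε (g ζ) ζ) := by
  unfold GG
  have h1 : ∀ j, Continuous (fun ζ : Fin n → ℂ => gr P m ε ζ j) := by
    intro j
    have h0 : Continuous (fun x : ℂ × (Fin n → ℂ) => gr P m x.1 x.2 j) :=
      (contDiff_gr P m j).continuous
    have h2 : Continuous (fun ζ : Fin n → ℂ => ((ε : ℂ), ζ)) :=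
      continuous_const.prodMk continuous_id
    have h3 := h0.comp h2
    simpa only [Function.comp_def] using h3
  refine ((hg.mul continuous_const).pow 2).mul ?_ |>.add ((hg.mul continuous_const).pow _)
  exact continuous_finsetSum _ fun j _ => (h1 j).norm.pow 2

lemma continuous_MM (P : MvPolynomial (Fin n) ℂ) (m : ℕ) {ψ : (Fin n → ℂ) × ℝ → ℝ}
    (hψ : ContDiff ℝ ∞ ψ) (ε : ℝ) : Continuous (fun ζ => MM P m ψ (ζ, ε)) := by
  unfold MM
  refine continuous_finsetSum _ fun s _ => ?_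
  have h1 : Continuous (fun ζ : Fin n → ℂ => ψ (ζ, ε)) :=
    hψ.continuous.comp (continuous_id.prodMk continuous_const)
  have h2 : Continuous (fun ζ : Fin n → ℂ => aL ψ (ls s) (ζ, ε)) :=
    (contDiff_aL hψ (ls s)).continuous.comp (continuous_id.prodMk continuous_const)
  exact (continuous_const.mul ((Complex.continuous_ofReal.comp
    (continuous_const.mul (continuous_const.sub h1))).pow _)).mul h2

/-- The main integral inequality. -/
lemma main_ineq (P : MvPolynomial (Fin n) ℂ) {m N : ℕ} (hP : P.totalDegree ≤ m) (hN : m + 2 ≤ N)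
    {ε : ℝ} (hε : 0 < ε) (hNε : N * ε ^ 2 = 1) {ψ : (Fin n → ℂ) × ℝ → ℝ}
    (hψ : ContDiff ℝ ∞ ψ) (hb : ∀ ζ, ψ (ζ, ε) < 1 → sq ζ ≤ 2) {Q : ℝ} (hQ : 0 < Q)
    (hw : ∀ ζ, ψ (ζ, ε) < 1 → 1 / 2 * ‖hp P m ε ζ‖ ^ 2 - 1 / (4 * Q) * GG P m ε (1 - ψ (ζ, ε)) ζ
      ≤ (hp P m ε ζ * MM P m ψ (ζ, ε)).re)
    {F : (Fin n → ℂ) → ℂ} (hF : Differentiable ℂ F)
    (hq : ∫ ζ, GG P m ε (1 - ψ (ζ, ε)) ζ * ‖F ζ‖ ^ 2 * (gp ψ ε ζ) ^ (N - m)
      ≤ Q * ∫ ζ, ‖hp P m ε ζ * F ζ‖ ^ 2 * (gp ψ ε ζ) ^ (N - m))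
    {A : ℝ} (hA : ∀ ζ, sq ζ ≤ 2 → ‖QD (star' P) ε (fun ζ => hp P m ε ζ * F ζ) ζ‖ ≤ A) :
    ∫ ζ, ‖hp P m ε ζ * F ζ‖ ^ 2 * (gp ψ ε ζ) ^ (N - m)
      ≤ 16 * Q * (∫ ζ, (gp ψ ε ζ) ^ (N - m)) * A ^ 2 := by
  set G : (Fin n → ℂ) → ℂ := fun ζ => hp P m ε ζ * F ζ with hG
  have hGd : Differentiable ℂ G := (differentiable_hp P m ε).mul hF
  have hgc : Continuous (gp ψ ε) := continuous_gp hψ.continuous ε
  have hg0 : ∀ ζ, 0 ≤ gp ψ ε ζ := fun ζ => le_max_right _ _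
  have hpc : Continuous (fun ζ : Fin n → ℂ => hp P m ε ζ) := (differentiable_hp P m ε).continuous
  have hψc : Continuous (fun ζ : Fin n → ℂ => ψ (ζ, ε)) :=
    hψ.continuous.comp (continuous_id.prodMk continuous_const)
  have hGGc : Continuous (fun ζ => GG P m ε (1 - ψ (ζ, ε)) ζ) :=
    continuous_GG P m ε (continuous_const.sub hψc)
  have hMc := continuous_MM P m hψ ε
  have hHc : Continuous (QD (star' P) ε G) := continuous_QD hGd _ _
  have hNm : N - m ≠ 0 := by omega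
  have hcs : ∀ k : ℕ, k ≠ 0 → HasCompactSupport (fun ζ => (gp ψ ε ζ) ^ k) := by
    intro k hk
    refine HasCompactSupport.intro (isCompact_sq 2) fun ζ hζ => ?_
    rw [gp_eq_zero hb hζ, zero_pow hk]
  have hcsC : ∀ k : ℕ, k ≠ 0 → HasCompactSupport (fun ζ => ((gp ψ ε ζ : ℝ) : ℂ) ^ k) := by
    intro k hk
    refine HasCompactSupport.intro (isCompact_sq 2) fun ζ hζ => ?_
    rw [gp_eq_zero hb hζ, Complex.ofReal_zero, zero_pow hk]
  -- the integrals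
  set X := ∫ ζ, ‖G ζ‖ ^ 2 * (gp ψ ε ζ) ^ (N - m) with hX
  set Y := ∫ ζ, GG P m ε (1 - ψ (ζ, ε)) ζ * ‖F ζ‖ ^ 2 * (gp ψ ε ζ) ^ (N - m) with hY
  set V := ∫ ζ, (gp ψ ε ζ) ^ (N - m) with hV
  have iX : Integrable (fun ζ => ‖G ζ‖ ^ 2 * (gp ψ ε ζ) ^ (N - m)) :=
    ((hGd.continuous.norm.pow 2).mul (hgc.pow _)).integrable_of_hasCompactSupport
      (hcs _ hNm).mul_left
  have iY : Integrable (fun ζ => GG P m ε (1 - ψ (ζ, ε)) ζ * ‖F ζ‖ ^ 2 *
      (gp ψ ε ζ) ^ (N - m)) :=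
    ((hGGc.mul (hF.continuous.norm.pow 2)).mul (hgc.pow _)).integrable_of_hasCompactSupport
      (hcs _ hNm).mul_left
  have iV : Integrable (fun ζ => (gp ψ ε ζ) ^ (N - m)) :=
    (hgc.pow _).integrable_of_hasCompactSupport (hcs _ hNm)
  -- the identity
  have hid := ident P hP hN hNε hψ hb hGd hF
  have iR : Integrable (fun ζ => G ζ * (starRingEnd ℂ) (F ζ) * MM P m ψ (ζ, ε)
      * ((gp ψ ε ζ : ℝ) : ℂ) ^ (N - m)) := by
    refine Continuous.integrable_of_hasCompactSupport ?_ (hcsC _ hNm).mul_left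
    exact ((hGd.continuous.mul (Complex.continuous_conj.comp hF.continuous)).mul hMc).mul
      ((Complex.continuous_ofReal.comp hgc).pow _)
  have iH : Integrable (fun ζ => QD (star' P) ε G ζ * (starRingEnd ℂ) (F ζ)
      * ((gp ψ ε ζ : ℝ) : ℂ) ^ N) := by
    refine Continuous.integrable_of_hasCompactSupport ?_ (hcsC _ (by omega)).mul_left
    exact (hHc.mul (Complex.continuous_conj.comp hF.continuous)).mul
      ((Complex.continuous_ofReal.comp hgc).pow _)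
  change (ε : ℂ) ^ m * ∫ ζ, QD (star' P) ε G ζ * (starRingEnd ℂ) (F ζ)
        * ((gp ψ ε ζ : ℝ) : ℂ) ^ N
      = ∫ ζ, G ζ * (starRingEnd ℂ) (F ζ) * MM P m ψ (ζ, ε)
        * ((gp ψ ε ζ : ℝ) : ℂ) ^ (N - m) at hid
  -- lower bound for the real part
  have hlow : 1 / 2 * X - 1 / (4 * Q) * Y ≤ (∫ ζ, G ζ * (starRingEnd ℂ) (F ζ) * MM P m ψ (ζ, ε)
        * ((gp ψ ε ζ : ℝ) : ℂ) ^ (N - m)).re := by
    have e1 : (∫ ζ, G ζ * (starRingEnd ℂ) (F ζ) * MM P m ψ (ζ, ε)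
        * ((gp ψ ε ζ : ℝ) : ℂ) ^ (N - m)).re = ∫ ζ, (G ζ * (starRingEnd ℂ) (F ζ) *
          MM P m ψ (ζ, ε) * ((gp ψ ε ζ : ℝ) : ℂ) ^ (N - m)).re := (integral_re iR).symm
    rw [e1, hX, hY, ← integral_const_mul, ← integral_const_mul,
      ← integral_sub (iX.const_mul _) (iY.const_mul _)]
    refine integral_mono ((iX.const_mul _).sub (iY.const_mul _)) iR.re fun ζ => ?_
    have e2 : (G ζ * (starRingEnd ℂ) (F ζ) * MM P m ψ (ζ, ε)
        * ((gp ψ ε ζ : ℝ) : ℂ) ^ (N - m)).re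
        = (hp P m ε ζ * MM P m ψ (ζ, ε)).re * (‖F ζ‖ ^ 2 * (gp ψ ε ζ) ^ (N - m)) := by
      have e3 : G ζ * (starRingEnd ℂ) (F ζ) * MM P m ψ (ζ, ε)
        * ((gp ψ ε ζ : ℝ) : ℂ) ^ (N - m)
        = (hp P m ε ζ * MM P m ψ (ζ, ε)) * ((‖F ζ‖ ^ 2 * (gp ψ ε ζ) ^ (N - m) : ℝ) : ℂ) := by
        have e4 : F ζ * (starRingEnd ℂ) (F ζ) = ((‖F ζ‖ ^ 2 : ℝ) : ℂ) := by
          rw [Complex.mul_conj, Complex.normSq_eq_norm_sq]
        rw [hG]
        push_cast at e4 ⊢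
        linear_combination (hp P m ε ζ * MM P m ψ (ζ, ε) * ((gp ψ ε ζ : ℝ) : ℂ) ^ (N - m)) * e4
      rw [e3, Complex.re_mul_ofReal]
    change 1 / 2 * (‖G ζ‖ ^ 2 * (gp ψ ε ζ) ^ (N - m)) - 1 / (4 * Q) *
      (GG P m ε (1 - ψ (ζ, ε)) ζ * ‖F ζ‖ ^ 2 * (gp ψ ε ζ) ^ (N - m)) ≤ _
    rw [e2]
    rcases lt_or_ge (ψ (ζ, ε)) 1 with h | h
    · have h1 := mul_le_mul_of_nonneg_right (hw ζ h)
        (mul_nonneg (sq_nonneg ‖F ζ‖) (pow_nonneg (hg0 ζ) (N - m)))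
      refine le_trans (le_of_eq ?_) h1
      rw [hG]
      simp only [norm_mul]
      ring
    · have h1 : gp ψ ε ζ = 0 := max_eq_right (by linarith)
      rw [h1, zero_pow hNm]
      simp
  -- upper bound for the norm
  have hup : ‖(ε : ℂ) ^ m * ∫ ζ, QD (star' P) ε G ζ * (starRingEnd ℂ) (F ζ)
        * ((gp ψ ε ζ : ℝ) : ℂ) ^ N‖ ≤ 2 * Q * A ^ 2 * V + 1 / (8 * Q) * Y := by
    rw [← integral_const_mul]
    refine (norm_integral_le_integral_norm _).trans ?_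
    rw [hV, hY, ← integral_const_mul, ← integral_const_mul,
      ← integral_add (iV.const_mul _) (iY.const_mul _)]
    refine integral_mono (iH.const_mul _).norm ((iV.const_mul _).add (iY.const_mul _)) fun ζ => ?_
    change ‖(ε : ℂ) ^ m * (QD (star' P) ε G ζ * (starRingEnd ℂ) (F ζ)
        * ((gp ψ ε ζ : ℝ) : ℂ) ^ N)‖ ≤ 2 * Q * A ^ 2 * (gp ψ ε ζ) ^ (N - m) + 1 / (8 * Q) *
      (GG P m ε (1 - ψ (ζ, ε)) ζ * ‖F ζ‖ ^ 2 * (gp ψ ε ζ) ^ (N - m))
    have e1 : ‖(ε : ℂ) ^ m * (QD (star' P) ε G ζ * (starRingEnd ℂ) (F ζ)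
        * ((gp ψ ε ζ : ℝ) : ℂ) ^ N)‖ = ‖QD (star' P) ε G ζ‖ * (ε ^ m * ‖F ζ‖ * gp ψ ε ζ ^ N) := by
      rw [norm_mul, norm_mul, norm_mul, norm_pow, norm_pow, Complex.norm_real, Complex.norm_real,
        Real.norm_of_nonneg hε.le, Real.norm_of_nonneg (hg0 ζ), RCLike.norm_conj]
      ring
    rw [e1]
    rcases lt_or_ge (ψ (ζ, ε)) 1 with h | h
    · have hg : gp ψ ε ζ = 1 - ψ (ζ, ε) := max_eq_left (by linarith)
      set g := gp ψ ε ζ with hgdef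
      have hA' := hA ζ (hb ζ h)
      have hGG : (g * ε) ^ (2 * m) ≤ GG P m ε (1 - ψ (ζ, ε)) ζ := by
        unfold GG
        rw [← hg]
        have : 0 ≤ (g * ε) ^ 2 * ∑ j, ‖gr P m ε ζ j‖ ^ 2 := by positivity
        linarith
      have e2 : g ^ N = g ^ m * g ^ (N - m) := by
        rw [← pow_add]; congr 1; omega
      have hgN : 0 ≤ g ^ (N - m) := pow_nonneg (hg0 ζ) _
      have hgm : 0 ≤ g ^ m := pow_nonneg (hg0 ζ) _
      set T := ε ^ m * ‖F ζ‖ * g ^ m with hT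
      have hT0 : 0 ≤ T := by positivity
      have hT2 : T ^ 2 ≤ GG P m ε (1 - ψ (ζ, ε)) ζ * ‖F ζ‖ ^ 2 := by
        have : T ^ 2 = (g * ε) ^ (2 * m) * ‖F ζ‖ ^ 2 := by
          rw [hT, mul_pow g ε, pow_mul, pow_mul, mul_pow, mul_pow, ← pow_mul, ← pow_mul,
            ← pow_mul, ← pow_mul, mul_comm m 2]
          ring
        rw [this]
        exact mul_le_mul_of_nonneg_right hGG (sq_nonneg _)
      have h2 : ‖QD (star' P) ε G ζ‖ * T ≤ 2 * Q * A ^ 2 + 1 / (8 * Q) * T ^ 2 := by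
        have h3 : ‖QD (star' P) ε G ζ‖ * T ≤ A * T := mul_le_mul_of_nonneg_right hA' hT0
        have h4 : A * T ≤ 2 * Q * A ^ 2 + 1 / (8 * Q) * T ^ 2 := by
          have h5 : 2 * Q * A ^ 2 + 1 / (8 * Q) * T ^ 2 - A * T
              = 1 / (8 * Q) * (4 * Q * A - T) ^ 2 := by
            field_simp
            ring
          have h6 : 0 ≤ 1 / (8 * Q) * (4 * Q * A - T) ^ 2 := by positivity
          linarith
        exact h3.trans h4
      have h7 : 1 / (8 * Q) * T ^ 2 ≤ 1 / (8 * Q) * (GG P m ε (1 - ψ (ζ, ε)) ζ * ‖F ζ‖ ^ 2) :=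
        mul_le_mul_of_nonneg_left hT2 (by positivity)
      calc ‖QD (star' P) ε G ζ‖ * (ε ^ m * ‖F ζ‖ * g ^ N)
          = (‖QD (star' P) ε G ζ‖ * T) * g ^ (N - m) := by rw [e2, hT]; ring
        _ ≤ (2 * Q * A ^ 2 + 1 / (8 * Q) * (GG P m ε (1 - ψ (ζ, ε)) ζ * ‖F ζ‖ ^ 2)) *
            g ^ (N - m) := mul_le_mul_of_nonneg_right (h2.trans (by linarith)) hgN
        _ = _ := by ring
    · have h1 : gp ψ ε ζ = 0 := max_eq_right (by linarith)
      rw [h1, zero_pow hNm, zero_pow (by omega : N ≠ 0)]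
      simp
  have h1 : (∫ ζ, G ζ * (starRingEnd ℂ) (F ζ) * MM P m ψ (ζ, ε)
        * ((gp ψ ε ζ : ℝ) : ℂ) ^ (N - m)).re ≤ 2 * Q * A ^ 2 * V + 1 / (8 * Q) * Y := by
    rw [← hid]
    exact (Complex.re_le_norm _).trans hup
  have h2 : 1 / (4 * Q) * Y ≤ 1 / 4 * X := by
    have := mul_le_mul_of_nonneg_left hq (by positivity : 0 ≤ 1 / (4 * Q))
    refine this.trans (le_of_eq ?_)
    field_simp
  have h3 : 1 / (8 * Q) * Y ≤ 1 / 8 * X := by
    have := mul_le_mul_of_nonneg_left hq (by positivity : 0 ≤ 1 / (8 * Q))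
    refine this.trans (le_of_eq ?_)
    field_simp
  nlinarith

lemma sq_norm_le (ζ : Fin n → ℂ) : sq ζ ≤ n * ‖ζ‖ ^ 2 := by
  unfold sq
  calc ∑ j, ‖ζ j‖ ^ 2 ≤ ∑ _j : Fin n, ‖ζ‖ ^ 2 := by
        refine Finset.sum_le_sum fun j _ => ?_
        exact pow_le_pow_left₀ (norm_nonneg _) (norm_le_pi_norm ζ j) 2
    _ = n * ‖ζ‖ ^ 2 := by simp

lemma norm_le_two {ζ : Fin n → ℂ} (h : sq ζ ≤ 2) : ‖ζ‖ ≤ 2 := by
  refine (pi_norm_le_iff_of_nonneg (by norm_num)).2 fun j => ?_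
  have h1 : ‖ζ j‖ ^ 2 ≤ sq ζ :=
    Finset.single_le_sum (f := fun j => ‖ζ j‖ ^ 2) (fun j _ => by positivity) (Finset.mem_univ j)
  nlinarith [norm_nonneg (ζ j)]

/-- The a priori estimate from the weight and the Malgrange type estimate. -/
theorem est_of (P : MvPolynomial (Fin n) ℂ) {m : ℕ} (hP : P.totalDegree ≤ m)
    (hw : ∃ L : ℝ, ∀ δ > (0 : ℝ), ∃ ψ : (Fin n → ℂ) × ℝ → ℝ, ContDiff ℝ ∞ ψ ∧
      ∃ ε₁ > (0 : ℝ), ∀ ε : ℝ, 0 < ε → ε ≤ ε₁ →
        IsW L (fun ζ => ψ (ζ, ε)) (fun ζ j => W j (fun y => (ψ y : ℂ)) (ζ, ε)) ∧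
        ∀ ζ, ψ (ζ, ε) < 1 →
          1 / 2 * ‖hp P m ε ζ‖ ^ 2 - δ * GG P m ε (1 - ψ (ζ, ε)) ζ
            ≤ (hp P m ε ζ * MM P m ψ (ζ, ε)).re)
    (hqe : ∀ L : ℝ, ∃ C > (0 : ℝ), ∃ ε₀ > (0 : ℝ), ∀ ε : ℝ, 0 < ε → ε ≤ ε₀ → ∀ N : ℕ,
      N * ε ^ 2 = 1 → m + 1 ≤ N → ∀ (ψ : (Fin n → ℂ) → ℝ) (om : (Fin n → ℂ) → Fin n → ℂ),
        IsW L ψ om → ∀ F : (Fin n → ℂ) → ℂ, Differentiable ℂ F →
          ∫ ζ, GG P m ε (1 - ψ ζ) ζ * ‖F ζ‖ ^ 2 * (max (1 - ψ ζ) 0) ^ (N - m)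
            ≤ C * ∫ ζ, ‖hp P m ε ζ * F ζ‖ ^ 2 * (max (1 - ψ ζ) 0) ^ (N - m)) :
    Est P := by
  intro ρ
  obtain ⟨L, hL⟩ := hw
  obtain ⟨Q, hQ, ε₀, hε₀, hq⟩ := hqe L
  obtain ⟨ψ, hψ, ε₁, hε₁, hw⟩ := hL (1 / (4 * Q)) (by positivity)
  set r : ℝ := 1 / (4 * (n + 1)) with hr
  have hr0 : 0 < r := by positivity
  -- the choice of `N`
  obtain ⟨N, hNm, h0, h1, h2⟩ : ∃ N : ℕ, m + 2 ≤ N ∧ (Real.sqrt N)⁻¹ ≤ ε₀ ∧
      (Real.sqrt N)⁻¹ ≤ ε₁ ∧ (Real.sqrt N)⁻¹ * |ρ| ≤ r := by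
    have ht : Filter.Tendsto (fun N : ℕ => (Real.sqrt N)⁻¹) Filter.atTop (nhds 0) :=
      tendsto_inv_atTop_zero.comp (Real.tendsto_sqrt_atTop.comp tendsto_natCast_atTop_atTop)
    have ht2 : Filter.Tendsto (fun N : ℕ => (Real.sqrt N)⁻¹ * |ρ|) Filter.atTop (nhds 0) := by
      simpa using ht.mul_const |ρ|
    have e1 := ht.eventually (Iic_mem_nhds hε₀)
    have e2 := ht.eventually (Iic_mem_nhds hε₁)
    have e3 := ht2.eventually (Iic_mem_nhds hr0)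
    obtain ⟨N, h⟩ := (((Filter.eventually_ge_atTop (m + 2)).and e1).and (e2.and e3)).exists
    exact ⟨N, h.1.1, h.1.2, h.2.1, h.2.2⟩
  set ε : ℝ := (Real.sqrt N)⁻¹ with hεdef
  have hN0 : (0 : ℝ) < N := by exact_mod_cast (by omega : 0 < N)
  have hs0 : 0 < Real.sqrt N := Real.sqrt_pos.2 hN0
  have hε : 0 < ε := inv_pos.2 hs0
  have hε' : (ε : ℂ) ≠ 0 := by exact_mod_cast hε.ne'
  have hNε : N * ε ^ 2 = 1 := by
    rw [hεdef, inv_pow, Real.sq_sqrt hN0.le, mul_inv_cancel₀ hN0.ne']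
  obtain ⟨hW, hwt⟩ := hw ε hε h1
  set V := ∫ ζ, (gp ψ ε ζ) ^ (N - m) with hV
  set vol := volume.real (Metric.closedBall (0 : Fin n → ℂ) r) with hvol
  have hvol0 : 0 < vol := by
    rw [hvol, Measure.real, ENNReal.toReal_pos_iff]
    exact ⟨Metric.measure_closedBall_pos _ _ hr0, measure_closedBall_lt_top⟩
  set C₃ := vol⁻¹ * (2 ^ (N - m) * (16 * Q * V)) with hC₃
  have hg0 : ∀ ζ, 0 ≤ gp ψ ε ζ := fun ζ => le_max_right _ _
  have hV0 : 0 ≤ V := integral_nonneg fun ζ => pow_nonneg (hg0 ζ) _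
  have hC₃0 : 0 ≤ C₃ := by positivity
  refine ⟨2 / ε, Real.sqrt C₃, fun f hf A hA z hz => ?_⟩
  have hA0 : 0 ≤ A := le_trans (norm_nonneg _) (hA 0 (by rw [norm_zero]; positivity))
  set h : (Fin n → ℂ) → ℂ := fun z => eval z P * f z with hh
  have hhd : Differentiable ℂ h := (differentiable_eval P).mul hf
  set F : (Fin n → ℂ) → ℂ := fun ζ => f ((ε : ℂ)⁻¹ • ζ) with hFdef
  have hsm : Differentiable ℂ (fun ζ : Fin n → ℂ => (ε : ℂ)⁻¹ • ζ) := by fun_prop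
  have hF : Differentiable ℂ F := hf.comp hsm
  set G : (Fin n → ℂ) → ℂ := fun ζ => hp P m ε ζ * F ζ with hG
  have hGd : Differentiable ℂ G := (differentiable_hp P m ε).mul hF
  have hGh : G = fun ζ => (ε : ℂ) ^ m * h ((ε : ℂ)⁻¹ • ζ) := by
    funext ζ
    rw [hG, hh, hFdef]
    simp only
    rw [hp_eval hP hε.ne']
    ring
  have hA' : ∀ ζ, sq ζ ≤ 2 → ‖QD (star' P) ε G ζ‖ ≤ ε ^ m * A := by
    intro ζ hζ
    rw [hGh, QD_scale hhd _ _ hε.ne', norm_mul, norm_pow, Complex.norm_real,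
      Real.norm_of_nonneg hε.le]
    refine mul_le_mul_of_nonneg_left (hA _ ?_) (by positivity)
    rw [norm_smul, norm_inv, Complex.norm_real, Real.norm_of_nonneg hε.le, div_eq_inv_mul]
    exact mul_le_mul_of_nonneg_left (norm_le_two hζ) (by positivity)
  have hX := main_ineq P hP hNm hε hNε hψ hW.bdd hQ hwt hF
    (hq ε hε h0 N hNε (by omega) _ _ hW F hF) hA'
  change ∫ ζ, ‖G ζ‖ ^ 2 * (gp ψ ε ζ) ^ (N - m) ≤ 16 * Q * V * (ε ^ m * A) ^ 2 at hX
  -- from the integral to the value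
  have hgc : Continuous (gp ψ ε) := continuous_gp hψ.continuous ε
  have iX : Integrable (fun ζ => ‖G ζ‖ ^ 2 * (gp ψ ε ζ) ^ (N - m)) := by
    refine ((hGd.continuous.norm.pow 2).mul (hgc.pow _)).integrable_of_hasCompactSupport ?_
    refine HasCompactSupport.mul_left ?_
    refine HasCompactSupport.intro (isCompact_sq 2) fun ζ hζ => ?_
    rw [Pi.pow_apply, gp_eq_zero hW.bdd hζ, zero_pow (by omega)]
  set ζ₀ : Fin n → ℂ := (ε : ℂ) • z with hζ₀
  have hζn : ‖ζ₀‖ ≤ r := by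
    rw [hζ₀, norm_smul, Complex.norm_real, Real.norm_of_nonneg hε.le]
    refine le_trans (mul_le_mul_of_nonneg_left (hz.trans (le_abs_self ρ)) hε.le) h2
  have hb := norm_sq_le_ball hGd ζ₀ r
  have hle : ∫ w in Metric.closedBall (0 : Fin n → ℂ) r, ‖G (ζ₀ + w)‖ ^ 2
      ≤ 2 ^ (N - m) * ∫ ζ, ‖G ζ‖ ^ 2 * (gp ψ ε ζ) ^ (N - m) := by
    have hc1 : Continuous (fun w : Fin n → ℂ => ‖G (ζ₀ + w)‖ ^ 2) :=
      ((hGd.continuous.comp (continuous_const.add continuous_id)).norm).pow 2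
    have iX2 : Integrable (fun w => ‖G (ζ₀ + w)‖ ^ 2 * (gp ψ ε (ζ₀ + w)) ^ (N - m)) :=
      iX.comp_add_left ζ₀
    calc ∫ w in Metric.closedBall (0 : Fin n → ℂ) r, ‖G (ζ₀ + w)‖ ^ 2
        ≤ ∫ w in Metric.closedBall (0 : Fin n → ℂ) r,
            2 ^ (N - m) * (‖G (ζ₀ + w)‖ ^ 2 * (gp ψ ε (ζ₀ + w)) ^ (N - m)) := by
          refine setIntegral_mono_on
            (hc1.continuousOn.integrableOn_compact (isCompact_closedBall 0 r))
            (iX2.const_mul _).integrableOn Metric.isClosed_closedBall.measurableSet ?_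
          intro w hw
          rw [mem_closedBall_zero_iff] at hw
          have e1 : ‖ζ₀ + w‖ ≤ 2 * r := (norm_add_le _ _).trans (by linarith)
          have e2 : sq (ζ₀ + w) ≤ 1 / 4 := by
            refine (sq_norm_le _).trans ?_
            have e3 : ‖ζ₀ + w‖ ^ 2 ≤ (2 * r) ^ 2 := pow_le_pow_left₀ (norm_nonneg _) e1 2
            have e4 : (n : ℝ) * ‖ζ₀ + w‖ ^ 2 ≤ n * (2 * r) ^ 2 :=
              mul_le_mul_of_nonneg_left e3 (Nat.cast_nonneg n)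
            refine e4.trans ?_
            rw [hr]
            have hn : (0 : ℝ) ≤ n := Nat.cast_nonneg n
            rw [show (n : ℝ) * (2 * (1 / (4 * (n + 1)))) ^ 2 = n / (4 * (n + 1) ^ 2) by
              field_simp; ring]
            rw [div_le_div_iff₀ (by positivity) (by norm_num)]
            nlinarith
          have e5 : 1 / 2 ≤ gp ψ ε (ζ₀ + w) := by
            have := hW.inner _ e2
            refine le_trans ?_ (le_max_left _ _)
            linarith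
          have e6 : 1 ≤ 2 ^ (N - m) * (gp ψ ε (ζ₀ + w)) ^ (N - m) := by
            rw [← mul_pow]
            apply one_le_pow₀
            linarith
          have e7 : 0 ≤ ‖G (ζ₀ + w)‖ ^ 2 := sq_nonneg _
          calc ‖G (ζ₀ + w)‖ ^ 2 = ‖G (ζ₀ + w)‖ ^ 2 * 1 := (mul_one _).symm
            _ ≤ ‖G (ζ₀ + w)‖ ^ 2 * (2 ^ (N - m) * (gp ψ ε (ζ₀ + w)) ^ (N - m)) :=
              mul_le_mul_of_nonneg_left e6 e7
            _ = _ := by ring
      _ ≤ ∫ w, 2 ^ (N - m) * (‖G (ζ₀ + w)‖ ^ 2 * (gp ψ ε (ζ₀ + w)) ^ (N - m)) := by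
          refine setIntegral_le_integral (iX2.const_mul _) (Filter.Eventually.of_forall fun w => ?_)
          have := hg0 (ζ₀ + w)
          change 0 ≤ 2 ^ (N - m) * (‖G (ζ₀ + w)‖ ^ 2 * (gp ψ ε (ζ₀ + w)) ^ (N - m))
          positivity
      _ = _ := by
          rw [integral_const_mul]
          congr 1
          exact integral_add_left_eq_self (fun ζ => ‖G ζ‖ ^ 2 * (gp ψ ε ζ) ^ (N - m)) ζ₀
  have hfin : ‖G ζ₀‖ ^ 2 ≤ C₃ * (ε ^ m * A) ^ 2 := by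
    have e1 : vol * ‖G ζ₀‖ ^ 2 ≤ 2 ^ (N - m) * (16 * Q * V * (ε ^ m * A) ^ 2) :=
      hb.trans (hle.trans (mul_le_mul_of_nonneg_left hX (by positivity)))
    rw [hC₃, mul_assoc, inv_mul_eq_div, le_div_iff₀ hvol0]
    calc ‖G ζ₀‖ ^ 2 * vol = vol * ‖G ζ₀‖ ^ 2 := mul_comm _ _
      _ ≤ _ := e1
      _ = _ := by ring
  have hGz : ‖G ζ₀‖ = ε ^ m * ‖h z‖ := by
    rw [hGh]
    simp only
    rw [hζ₀, smul_smul, inv_mul_cancel₀ hε', one_smul, norm_mul, norm_pow, Complex.norm_real,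
      Real.norm_of_nonneg hε.le]
  rw [hGz, mul_pow, mul_pow, ← mul_assoc, mul_comm C₃, mul_assoc] at hfin
  have h5 : ‖h z‖ ^ 2 ≤ C₃ * A ^ 2 := le_of_mul_le_mul_left hfin (by positivity)
  have h6 : ‖h z‖ ^ 2 ≤ (Real.sqrt C₃ * A) ^ 2 := by
    rw [mul_pow, Real.sq_sqrt hC₃0]; exact h5
  exact (sq_le_sq₀ (norm_nonneg _) (by positivity)).1 h6

end Pool.Agent.H60.FB
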