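import Pool.Agent.H37.FB.Hc

/-!
MP_6e521b_an: the Fischer identity and bounds in the Gaussian space (helper37).
-/

open MvPolynomial MeasureTheory Pool.Agent.H77.FB

namespace Pool.Agent.H60.FB

variable {n : ℕ}

/-- half of the Gaussian weight -/
noncomputable def hw (z : Fin n → ℂ) : ℝ := Real.exp (-(∑ j, ‖z j‖ ^ 2) / 2)

lemma hw_pos (z : Fin n → ℂ) : 0 < hw z := Real.exp_pos _

lemma hw_sq (z : Fin n → ℂ) : hw z * hw z = gw z := by
  unfold hw gw
  rw [← Real.exp_add]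
  congr 1
  ring

lemma continuous_hw : Continuous (hw (n := n)) := by
  unfold hw; fun_prop

lemma integrable_hw (B : ℝ) : Integrable (fun z : Fin n → ℂ => Real.exp (B * ‖z‖) * hw z) := by
  have h0 : (0 : ℝ) < Real.sqrt 2 := by positivity
  have h1 := (integrable_gw (n := n) (B * Real.sqrt 2)).comp_smul (R := (Real.sqrt 2)⁻¹)
    (by positivity)
  refine h1.congr (Filter.Eventually.of_forall fun z => ?_)
  change Real.exp (B * Real.sqrt 2 * ‖(Real.sqrt 2)⁻¹ • z‖) * gw ((Real.sqrt 2)⁻¹ • z)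
    = Real.exp (B * ‖z‖) * hw z
  rw [norm_smul, Real.norm_of_nonneg (by positivity : (0 : ℝ) ≤ (Real.sqrt 2)⁻¹)]
  congr 1
  · congr 1
    field_simp
  · unfold gw hw
    congr 1
    have h2 : ∀ j, ‖((Real.sqrt 2)⁻¹ • z) j‖ ^ 2 = ‖z j‖ ^ 2 / 2 := by
      intro j
      rw [Pi.smul_apply, norm_smul, Real.norm_of_nonneg (by positivity : (0 : ℝ) ≤ (Real.sqrt 2)⁻¹),
        mul_pow, inv_pow, Real.sq_sqrt (by norm_num)]
      ring
    simp only [h2]
    rw [← Finset.sum_div]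
    ring

lemma norm_expo_le (z ζ : Fin n → ℂ) :
    ‖(expo (cj z)).1 ζ‖ * (gw z * gw ζ) ≤ hw z * hw ζ := by
  have h1 : ‖(expo (cj z)).1 ζ‖ ≤ Real.exp ((∑ j, ‖z j‖ ^ 2) / 2 + (∑ j, ‖ζ j‖ ^ 2) / 2) := by
    change ‖Complex.exp (∑ j, ζ j * cj z j)‖ ≤ _
    rw [Complex.norm_exp]
    refine Real.exp_le_exp.2 ((Complex.re_le_norm _).trans ((norm_sum_le _ _).trans ?_))
    rw [← add_div, ← Finset.sum_add_distrib, Finset.sum_div]
    refine Finset.sum_le_sum fun j _ => ?_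
    rw [norm_mul]
    have h2 : ‖cj z j‖ = ‖z j‖ := by simp [cj]
    rw [h2]
    nlinarith [sq_nonneg (‖z j‖ - ‖ζ j‖)]
  have h3 : Real.exp ((∑ j, ‖z j‖ ^ 2) / 2 + (∑ j, ‖ζ j‖ ^ 2) / 2) * (gw z * gw ζ)
      = hw z * hw ζ := by
    unfold gw hw
    rw [← Real.exp_add, ← Real.exp_add, ← Real.exp_add]
    congr 1
    ring
  rw [← h3]
  exact mul_le_mul_of_nonneg_right h1 (mul_pos (gw_pos z) (gw_pos ζ)).le

lemma conj_expo (z ζ : Fin n → ℂ) : (starRingEnd ℂ) ((expo (cj ζ)).1 z) = (expo (cj z)).1 ζ := by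
  change (starRingEnd ℂ) (Complex.exp (∑ j, z j * cj ζ j)) = Complex.exp (∑ j, ζ j * cj z j)
  rw [← Complex.exp_conj, map_sum]
  congr 1
  refine Finset.sum_congr rfl fun j _ => ?_
  simp only [cj, map_mul, Complex.conj_conj]
  ring

/-- the value of `P*(D) g` as an integral -/
lemma QDE_gauss (P : MvPolynomial (Fin n) ℂ) {g : (Fin n → ℂ) → ℂ} (hg : g ∈ ExpT n)
    (ζ : Fin n → ℂ) :
    (QDE (star' P) ⟨g, hg.1⟩).1 ζ * gc n
      = ∫ z, (g z * (gw z : ℂ)) * ((starRingEnd ℂ) (eval z P) * (expo (cj z)).1 ζ) := by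
  set ev : Ent n →ₗ[ℂ] ℂ :=
    { toFun := fun f => f.1 ζ, map_add' := fun _ _ => rfl, map_smul' := fun _ _ => rfl } with hev
  set T : Ent n →ₗ[ℂ] ℂ := ev.comp (QDE (star' P)) with hT
  have hTa : ∀ f : Ent n, T f = (QDE (star' P) f).1 ζ := fun _ => rfl
  have hAF : IsAF T := ⟨‖ζ‖ + (star' P).totalDegree,
    ∑ s ∈ (star' P).support, ‖(star' P).coeff s‖, fun f A hA => by
      rw [hTa]
      exact QDE_bound (star' P) f ‖ζ‖ A hA ζ le_rfl⟩
  rw [← hTa, ← gauss_functional hAF hg]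
  refine integral_congr_ae (Filter.Eventually.of_forall fun z => ?_)
  change (g z * (gw z : ℂ)) * T (expo (cj z)) = _
  rw [hTa, QDE_expo, eval_star', cj_cj]
  rfl

theorem fischer (P : MvPolynomial (Fin n) ℂ) {g h : (Fin n → ℂ) → ℂ} (hg : g ∈ ExpT n)
    (hh : h ∈ ExpT n) :
    ∫ ζ, (QDE (star' P) ⟨g, hg.1⟩).1 ζ * ((starRingEnd ℂ) (h ζ) * (gw ζ : ℂ))
      = ∫ z, (g z * (starRingEnd ℂ) (eval z P)) * ((starRingEnd ℂ) (h z) * (gw z : ℂ)) := by
  have hgc : (gc n : ℂ) ≠ 0 := by exact_mod_cast (gc_pos n).ne'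
  have hgcont : Continuous g := hg.1.continuous
  have hhcont : Continuous h := hh.1.continuous
  obtain ⟨-, Cg, hCg, Bg, hBg, hgb⟩ := id hg
  obtain ⟨-, Ch, hCh, Bh, hBh, hhb⟩ := id hh
  obtain ⟨CP, hCP, BP, hBP, hPb⟩ := eval_bound P
  set F : (Fin n → ℂ) → (Fin n → ℂ) → ℂ := fun ζ z =>
    ((g z * (gw z : ℂ)) * ((starRingEnd ℂ) (eval z P) * (expo (cj z)).1 ζ))
      * ((starRingEnd ℂ) (h ζ) * (gw ζ : ℂ)) with hF
  have hPc : Continuous (fun z : Fin n → ℂ => eval z P) := (differentiable_eval P).continuous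
  have hFc : Continuous (Function.uncurry F) := by
    have he : Continuous (fun p : (Fin n → ℂ) × (Fin n → ℂ) => (expo (cj p.2)).1 p.1) := by
      change Continuous (fun p : (Fin n → ℂ) × (Fin n → ℂ) =>
        Complex.exp (∑ j, p.1 j * (starRingEnd ℂ) (p.2 j)))
      fun_prop
    have hg2 : Continuous (fun p : (Fin n → ℂ) × (Fin n → ℂ) => (gw p.2 : ℂ)) :=
      Complex.continuous_ofReal.comp (continuous_gw.comp continuous_snd)
    have hg1 : Continuous (fun p : (Fin n → ℂ) × (Fin n → ℂ) => (gw p.1 : ℂ)) :=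
      Complex.continuous_ofReal.comp (continuous_gw.comp continuous_fst)
    change Continuous (fun p : (Fin n → ℂ) × (Fin n → ℂ) =>
      ((g p.2 * (gw p.2 : ℂ)) * ((starRingEnd ℂ) (eval p.2 P) * (expo (cj p.2)).1 p.1))
      * ((starRingEnd ℂ) (h p.1) * (gw p.1 : ℂ)))
    exact (((hgcont.comp continuous_snd).mul hg2).mul
      ((Complex.continuous_conj.comp (hPc.comp continuous_snd)).mul he)).mul
      ((Complex.continuous_conj.comp (hhcont.comp continuous_fst)).mul hg1)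
  have hFi : Integrable (Function.uncurry F) (volume.prod volume) := by
    have h1 : Integrable (fun p : (Fin n → ℂ) × (Fin n → ℂ) =>
        (Ch * (Real.exp (Bh * ‖p.1‖) * hw p.1))
          * ((Cg * CP) * (Real.exp ((Bg + BP) * ‖p.2‖) * hw p.2))) (volume.prod volume) :=
      ((integrable_hw Bh).const_mul Ch).mul_prod ((integrable_hw (Bg + BP)).const_mul (Cg * CP))
    refine h1.mono' hFc.aestronglyMeasurable (Filter.Eventually.of_forall fun p => ?_)
    change ‖((g p.2 * (gw p.2 : ℂ)) * ((starRingEnd ℂ) (eval p.2 P) * (expo (cj p.2)).1 p.1))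
      * ((starRingEnd ℂ) (h p.1) * (gw p.1 : ℂ))‖ ≤ _
    simp only [norm_mul, RCLike.norm_conj, Complex.norm_real, Real.norm_eq_abs,
      abs_of_pos (gw_pos _)]
    have h2 := norm_expo_le p.2 p.1
    have h3 := hgb p.2
    have h4 := hhb p.1
    have h5 := hPb p.2
    calc ‖g p.2‖ * gw p.2 * (‖eval p.2 P‖ * ‖(expo (cj p.2)).1 p.1‖) * (‖h p.1‖ * gw p.1)
        = (‖g p.2‖ * ‖eval p.2 P‖ * ‖h p.1‖) * (‖(expo (cj p.2)).1 p.1‖ * (gw p.2 * gw p.1)) := by
          ring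
      _ ≤ ((Cg * Real.exp (Bg * ‖p.2‖)) * (CP * Real.exp (BP * ‖p.2‖))
            * (Ch * Real.exp (Bh * ‖p.1‖))) * (hw p.2 * hw p.1) := by
          have e1 : 0 ≤ ‖(expo (cj p.2)).1 p.1‖ * (gw p.2 * gw p.1) :=
            mul_nonneg (norm_nonneg _) (mul_pos (gw_pos _) (gw_pos _)).le
          gcongr
      _ = _ := by
          have e2 : Real.exp ((Bg + BP) * ‖p.2‖) = Real.exp (Bg * ‖p.2‖) * Real.exp (BP * ‖p.2‖) := by
            rw [← Real.exp_add]; ring_nf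
          rw [e2]
          ring
  -- the iterated integrals
  have hA : (∫ ζ, (QDE (star' P) ⟨g, hg.1⟩).1 ζ * ((starRingEnd ℂ) (h ζ) * (gw ζ : ℂ))) * gc n
      = ∫ ζ, ∫ z, F ζ z := by
    rw [← integral_mul_const]
    refine integral_congr_ae (Filter.Eventually.of_forall fun ζ => ?_)
    change (QDE (star' P) ⟨g, hg.1⟩).1 ζ * ((starRingEnd ℂ) (h ζ) * (gw ζ : ℂ)) * gc n = ∫ z, F ζ z
    rw [hF]
    simp only
    rw [integral_mul_const, ← QDE_gauss P hg ζ]
    ring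
  have hB : ∀ z, ∫ ζ, F ζ z
      = ((g z * (starRingEnd ℂ) (eval z P)) * ((starRingEnd ℂ) (h z) * (gw z : ℂ))) * gc n := by
    intro z
    have h1 := congrArg (starRingEnd ℂ) (gauss_repr hh z)
    rw [← integral_conj] at h1
    have h2 : ∫ ζ, F ζ z = ∫ ζ, ((g z * (gw z : ℂ)) * (starRingEnd ℂ) (eval z P))
        * (starRingEnd ℂ) ((h ζ * (gw ζ : ℂ)) * (expo (cj ζ)).1 z) := by
      refine integral_congr_ae (Filter.Eventually.of_forall fun ζ => ?_)
      change ((g z * (gw z : ℂ)) * ((starRingEnd ℂ) (eval z P) * (expo (cj z)).1 ζ))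
        * ((starRingEnd ℂ) (h ζ) * (gw ζ : ℂ))
        = ((g z * (gw z : ℂ)) * (starRingEnd ℂ) (eval z P))
          * (starRingEnd ℂ) ((h ζ * (gw ζ : ℂ)) * (expo (cj ζ)).1 z)
      rw [map_mul, map_mul, conj_expo, Complex.conj_ofReal]
      ring
    rw [h2, integral_const_mul, h1, map_mul, Complex.conj_ofReal]
    ring
  have hC := integral_integral_swap hFi
  rw [hC] at hA
  simp only [hB] at hA
  rw [integral_mul_const] at hA
  exact mul_right_cancel₀ hgc hA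

/-- moments of the Gaussian weight -/
lemma moment_le (k : ℕ) (z : Fin n → ℂ) : ‖z‖ ^ (2 * k) * gw z ≤ 2 ^ k * k.factorial * hw z := by
  have h1 := Real.pow_div_factorial_le_exp (‖z‖ ^ 2 / 2) (by positivity) k
  rw [div_le_iff₀ (by positivity), div_pow, div_le_iff₀ (by positivity), ← pow_mul] at h1
  have h2 : Real.exp (‖z‖ ^ 2 / 2) * gw z ≤ hw z := by
    unfold gw hw
    rw [← Real.exp_add]
    apply Real.exp_le_exp.2
    have h3 : ‖z‖ ^ 2 ≤ ∑ j, ‖z j‖ ^ 2 := by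
      by_cases hz : z = 0
      · subst hz
        simp
      · obtain ⟨j, hj⟩ : ∃ j, ‖z j‖ = ‖z‖ := by
          have hne : Nonempty (Fin n) := by
            by_contra h
            rw [not_nonempty_iff] at h
            exact hz (Subsingleton.elim _ _)
          obtain ⟨j, -, hj⟩ := Finset.exists_mem_eq_sup' Finset.univ_nonempty (fun j => ‖z j‖₊)
          refine ⟨j, ?_⟩
          rw [Pi.norm_def, Finset.sup'_eq_sup] at *
          rw [hj]
          rfl
        rw [← hj]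
        exact Finset.single_le_sum (f := fun j => ‖z j‖ ^ 2) (fun j _ => by positivity)
          (Finset.mem_univ j)
    linarith
  calc ‖z‖ ^ (2 * k) * gw z ≤ (Real.exp (‖z‖ ^ 2 / 2) * k.factorial * 2 ^ k) * gw z :=
        mul_le_mul_of_nonneg_right h1 (gw_pos z).le
    _ = 2 ^ k * k.factorial * (Real.exp (‖z‖ ^ 2 / 2) * gw z) := by ring
    _ ≤ _ := mul_le_mul_of_nonneg_left h2 (by positivity)

/-- The Cauchy-Schwarz inequality. -/
lemma cs_real {α : Type*} [MeasurableSpace α] {μ : Measure α} {f g : α → ℝ}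
    (hf : Integrable (fun x => f x ^ 2) μ) (hg : Integrable (fun x => g x ^ 2) μ)
    (hfg : Integrable (fun x => f x * g x) μ) :
    (∫ x, f x * g x ∂μ) ^ 2 ≤ (∫ x, f x ^ 2 ∂μ) * ∫ x, g x ^ 2 ∂μ := by
  have h : ∀ t : ℝ, 0 ≤ (∫ x, f x ^ 2 ∂μ) * (t * t) + (-2 * ∫ x, f x * g x ∂μ) * t
      + ∫ x, g x ^ 2 ∂μ := by
    intro t
    have h1 : 0 ≤ ∫ x, (t * f x - g x) ^ 2 ∂μ := integral_nonneg fun x => sq_nonneg _
    have h2 : ∫ x, (t * f x - g x) ^ 2 ∂μ
        = ∫ x, (t * t * f x ^ 2 + (-2 * t * (f x * g x) + g x ^ 2)) ∂μ := by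
      refine integral_congr_ae (Filter.Eventually.of_forall fun x => ?_)
      change (t * f x - g x) ^ 2 = t * t * f x ^ 2 + (-2 * t * (f x * g x) + g x ^ 2)
      ring
    have j1 : Integrable (fun x => -2 * t * (f x * g x)) μ := hfg.const_mul _
    have j2 : Integrable (fun x => t * t * f x ^ 2) μ := hf.const_mul _
    have j3 : Integrable (fun x => -2 * t * (f x * g x) + g x ^ 2) μ := j1.add hg
    rw [h2, integral_add j2 j3, integral_add j1 hg, integral_const_mul, integral_const_mul] at h1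
    linarith
  have h3 := discrim_le_zero h
  unfold discrim at h3
  nlinarith

/-- The value of a function in the Gaussian space at a point. -/
lemma gauss_point {g : (Fin n → ℂ) → ℂ} (hg : g ∈ ExpT n) (ζ : Fin n → ℂ) :
    (‖g ζ‖ * gc n) ^ 2 ≤ (∫ z, ‖g z‖ ^ 2 * gw z)
      * (Real.exp (2 * ∑ j, ‖ζ j‖ ^ 2) * ∫ z : Fin n → ℂ, hw z) := by
  obtain ⟨hd, C, hC, B, hB, hb⟩ := id hg
  have hgc : Continuous g := hd.continuous
  have hec : Continuous (fun z : Fin n → ℂ => (expo (cj z)).1 ζ) := by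
    change Continuous (fun z : Fin n → ℂ => Complex.exp (∑ j, ζ j * (starRingEnd ℂ) (z j)))
    fun_prop
  have hhc : Continuous (hw (n := n)) := continuous_hw
  have hi0 : Integrable (fun z : Fin n → ℂ => hw z) := by
    have := integrable_hw (n := n) 0
    simpa using this
  have hE : ∀ z : Fin n → ℂ, (‖(expo (cj z)).1 ζ‖ * hw z) ^ 2
      ≤ Real.exp (2 * ∑ j, ‖ζ j‖ ^ 2) * hw z := by
    intro z
    have h1 : ‖(expo (cj z)).1 ζ‖ ≤ Real.exp ((∑ j, ‖ζ j‖ ^ 2) + (∑ j, ‖z j‖ ^ 2) / 4) := by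
      change ‖Complex.exp (∑ j, ζ j * cj z j)‖ ≤ _
      rw [Complex.norm_exp]
      refine Real.exp_le_exp.2 ((Complex.re_le_norm _).trans ((norm_sum_le _ _).trans ?_))
      rw [Finset.sum_div, ← Finset.sum_add_distrib]
      refine Finset.sum_le_sum fun j _ => ?_
      rw [norm_mul]
      have h2 : ‖cj z j‖ = ‖z j‖ := by simp [cj]
      rw [h2]
      nlinarith [sq_nonneg (‖z j‖ / 2 - ‖ζ j‖)]
    have h2 : (Real.exp ((∑ j, ‖ζ j‖ ^ 2) + (∑ j, ‖z j‖ ^ 2) / 4) * hw z) ^ 2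
        = Real.exp (2 * ∑ j, ‖ζ j‖ ^ 2) * hw z := by
      unfold hw
      rw [mul_pow, ← Real.exp_nat_mul, ← Real.exp_nat_mul, ← Real.exp_add, ← Real.exp_add]
      congr 1
      push_cast
      ring
    rw [← h2]
    exact pow_le_pow_left₀ (mul_nonneg (norm_nonneg _) (hw_pos z).le)
      (mul_le_mul_of_nonneg_right h1 (hw_pos z).le) 2
  have hi1 : Integrable (fun z : Fin n → ℂ => (‖g z‖ * hw z) ^ 2) := by
    refine integrable_of_bound (C := C ^ 2) (B := 2 * B) ((hgc.norm.mul hhc).pow 2) fun z => ?_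
    rw [norm_pow, norm_mul, norm_norm, Real.norm_of_nonneg (hw_pos z).le, mul_pow, pow_two (hw z),
      hw_sq]
    refine mul_le_mul_of_nonneg_right ?_ (gw_pos z).le
    calc ‖g z‖ ^ 2 ≤ (C * Real.exp (B * ‖z‖)) ^ 2 := pow_le_pow_left₀ (norm_nonneg _) (hb z) 2
      _ = C ^ 2 * (Real.exp (B * ‖z‖) * Real.exp (B * ‖z‖)) := by ring
      _ = _ := by rw [← Real.exp_add]; ring_nf
  have hi2 : Integrable (fun z : Fin n → ℂ => (‖(expo (cj z)).1 ζ‖ * hw z) ^ 2) := by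
    refine (hi0.const_mul (Real.exp (2 * ∑ j, ‖ζ j‖ ^ 2))).mono'
      ((hec.norm.mul hhc).pow 2).aestronglyMeasurable (Filter.Eventually.of_forall fun z => ?_)
    rw [Real.norm_of_nonneg (sq_nonneg _)]
    exact hE z
  have hi3 : Integrable (fun z : Fin n → ℂ => (‖g z‖ * hw z) * (‖(expo (cj z)).1 ζ‖ * hw z)) := by
    refine (hi1.add hi2).mono'
      ((hgc.norm.mul hhc).mul (hec.norm.mul hhc)).aestronglyMeasurable
      (Filter.Eventually.of_forall fun z => ?_)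
    have e1 : 0 ≤ ‖g z‖ * hw z := mul_nonneg (norm_nonneg _) (hw_pos z).le
    have e2 : 0 ≤ ‖(expo (cj z)).1 ζ‖ * hw z := mul_nonneg (norm_nonneg _) (hw_pos z).le
    rw [Real.norm_of_nonneg (mul_nonneg e1 e2)]
    change _ ≤ (‖g z‖ * hw z) ^ 2 + (‖(expo (cj z)).1 ζ‖ * hw z) ^ 2
    nlinarith [sq_nonneg (‖g z‖ * hw z - ‖(expo (cj z)).1 ζ‖ * hw z)]
  have h1 : ‖g ζ‖ * gc n ≤ ∫ z, (‖g z‖ * hw z) * (‖(expo (cj z)).1 ζ‖ * hw z) := by
    have h2 := gauss_repr hg ζ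
    have h3 : ‖g ζ‖ * gc n = ‖g ζ * (gc n : ℂ)‖ := by
      rw [norm_mul, Complex.norm_real, Real.norm_of_nonneg (gc_pos n).le]
    rw [h3, ← h2]
    refine (norm_integral_le_integral_norm _).trans (le_of_eq ?_)
    refine integral_congr_ae (Filter.Eventually.of_forall fun z => ?_)
    change ‖(g z * (gw z : ℂ)) * (expo (cj z)).1 ζ‖ = _
    rw [norm_mul, norm_mul, Complex.norm_real, Real.norm_of_nonneg (gw_pos z).le, ← hw_sq]
    ring
  have h4 := cs_real hi1 hi2 hi3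
  have h5 : ∫ z, (‖g z‖ * hw z) ^ 2 = ∫ z, ‖g z‖ ^ 2 * gw z := by
    refine integral_congr_ae (Filter.Eventually.of_forall fun z => ?_)
    change (‖g z‖ * hw z) ^ 2 = _
    rw [mul_pow, pow_two (hw z), hw_sq]
  have h6 : ∫ z, (‖(expo (cj z)).1 ζ‖ * hw z) ^ 2
      ≤ Real.exp (2 * ∑ j, ‖ζ j‖ ^ 2) * ∫ z : Fin n → ℂ, hw z := by
    rw [← integral_const_mul]
    exact integral_mono hi2 (hi0.const_mul _) hE
  rw [h5] at h4
  refine (pow_le_pow_left₀ (mul_nonneg (norm_nonneg _) (gc_pos n).le) h1 2).trans ?_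
  refine h4.trans (mul_le_mul_of_nonneg_left h6 ?_)
  exact integral_nonneg fun z => mul_nonneg (by positivity) (gw_pos z).le

end Pool.Agent.H60.FB
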