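import Pool.Agent.H37.FB.Surj
import Pool.Agent.H77.FB.Inj

/-!
MP_6e521b_an: homogeneous components of entire functions and constant coefficient operators
(helper37).
-/

open MvPolynomial MeasureTheory Pool.Agent.H77.FB

namespace Pool.Agent.H60.FB

variable {n : ℕ}

lemma hcomp_unique {f : (Fin n → ℂ) → ℂ} (hf : Differentiable ℂ f) (z : Fin n → ℂ) (a : ℕ → ℂ)
    (h : ∀ c : ℂ, HasSum (fun k => a k * c ^ k) (f (c • z))) (k : ℕ) : hcomp f k z = a k := by
  set p : FormalMultilinearSeries ℂ ℂ ℂ :=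
    fun k => ContinuousMultilinearMap.mkPiRing ℂ (Fin k) (a k) with hp
  have hc : ∀ k, p.coeff k = a k := by
    intro k
    simp [FormalMultilinearSeries.coeff, hp]
  have h1 : HasFPowerSeriesAt (fun c : ℂ => f (c • z)) p 0 := by
    rw [hasFPowerSeriesAt_iff]
    refine Filter.Eventually.of_forall fun c => ?_
    rw [zero_add]
    refine (h c).congr_fun ?_
    intro k
    rw [hc, smul_eq_mul, mul_comm]
  have h2 := ((diff_line hf z).hasFPowerSeriesOnBall 0 (R := 1) one_pos).hasFPowerSeriesAt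
  have h3 := h2.eq_formalMultilinearSeries h1
  unfold hcomp
  have h4 : (cauchyPowerSeries (fun c : ℂ => f (c • z)) 0 1 k) = p k := by
    rw [← h3]
    rfl
  rw [h4]
  simp [hp]

lemma hcomp_hasSum_smul {f : (Fin n → ℂ) → ℂ} (hf : Differentiable ℂ f) (z : Fin n → ℂ) (c : ℂ) :
    HasSum (fun k => hcomp f k z * c ^ k) (f (c • z)) := by
  have h := (diff_line hf z).hasFPowerSeriesOnBall 0 (R := 1) one_pos
  have h1 := h.hasSum (y := c) (by simp)
  simp only [zero_add] at h1
  refine h1.congr_fun ?_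
  intro k
  rw [FormalMultilinearSeries.apply_eq_pow_smul_coeff, smul_eq_mul, mul_comm]
  rfl

lemma hcomp_smul {f : (Fin n → ℂ) → ℂ} (hf : Differentiable ℂ f) (k : ℕ) (c : ℂ)
    (z : Fin n → ℂ) : hcomp f k (c • z) = c ^ k * hcomp f k z := by
  refine hcomp_unique hf (c • z) (fun k => c ^ k * hcomp f k z) (fun d => ?_) k
  have h := hcomp_hasSum_smul hf z (d * c)
  rw [smul_smul]
  refine h.congr_fun ?_
  intro k
  ring

lemma hcomp_add {f g : (Fin n → ℂ) → ℂ} (hf : Differentiable ℂ f) (hg : Differentiable ℂ g)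
    (k : ℕ) (z : Fin n → ℂ) : hcomp (f + g) k z = hcomp f k z + hcomp g k z := by
  refine hcomp_unique (hf.add hg) z (fun k => hcomp f k z + hcomp g k z) (fun c => ?_) k
  refine ((hcomp_hasSum_smul hf z c).add (hcomp_hasSum_smul hg z c)).congr_fun ?_
  intro k
  change (hcomp f k z + hcomp g k z) * c ^ k = hcomp f k z * c ^ k + hcomp g k z * c ^ k
  ring

lemma hcomp_const_smul {f : (Fin n → ℂ) → ℂ} (hf : Differentiable ℂ f) (a : ℂ)
    (k : ℕ) (z : Fin n → ℂ) : hcomp (a • f) k z = a * hcomp f k z := by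
  refine hcomp_unique (hf.const_smul a) z (fun k => a * hcomp f k z) (fun c => ?_) k
  refine ((hcomp_hasSum_smul hf z c).mul_left a).congr_fun ?_
  intro k
  change a * hcomp f k z * c ^ k = a * (hcomp f k z * c ^ k)
  ring

/-- the homogeneous component as an operator on entire functions -/
noncomputable def HC (k : ℕ) : Ent n →ₗ[ℂ] Ent n where
  toFun f := ⟨hcomp f.1 k, (hcomp_mem f.2 k).1⟩
  map_add' f g := by
    apply Subtype.ext
    funext z
    exact hcomp_add f.2 g.2 k z
  map_smul' c f := by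
    apply Subtype.ext
    funext z
    exact hcomp_const_smul f.2 c k z

lemma eval_smul_homog {P : MvPolynomial (Fin n) ℂ} {m : ℕ} (h : P.IsHomogeneous m) (c : ℂ)
    (z : Fin n → ℂ) : eval (c • z) P = c ^ m * eval z P := by
  rw [MvPolynomial.eval_eq', MvPolynomial.eval_eq', Finset.mul_sum]
  refine Finset.sum_congr rfl fun s hs => ?_
  have h1 : ∑ i, s i = m := by
    have := h (mem_support_iff.1 hs)
    rw [← this, Finsupp.weight_apply, Finsupp.sum_fintype]
    · simp
    · simp
  have h2 : ∏ i, (c • z) i ^ s i = c ^ m * ∏ i, z i ^ s i := by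
    simp only [Pi.smul_apply, smul_eq_mul, mul_pow]
    rw [Finset.prod_mul_distrib, Finset.prod_pow_eq_pow_sum, h1]
  rw [h2]
  ring

lemma hcomp_mul_homog {P : MvPolynomial (Fin n) ℂ} {m : ℕ} (h : P.IsHomogeneous m)
    (f : Ent n) (k : ℕ) : HC (k + m) (mulEnt P f) = mulEnt P (HC k f) := by
  apply Subtype.ext
  funext z
  change hcomp (fun z => eval z P * f.1 z) (k + m) z = eval z P * hcomp f.1 k z
  have hd : Differentiable ℂ (fun z => eval z P * f.1 z) := (mulEnt P f).2
  have key := hcomp_unique hd z (fun j => if j < m then 0 else eval z P * hcomp f.1 (j - m) z)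
    (fun c => ?_) (k + m)
  · rw [key, if_neg (by omega), Nat.add_sub_cancel]
  · have h1 := ((hcomp_hasSum_smul f.2 z c).mul_left (c ^ m * eval z P))
    rw [eval_smul_homog h]
    rw [← hasSum_nat_add_iff' m]
    have h2 : ∑ i ∈ Finset.range m,
        (if i < m then (0 : ℂ) else eval z P * hcomp f.1 (i - m) z) * c ^ i = 0 := by
      refine Finset.sum_eq_zero fun i hi => ?_
      rw [if_pos (Finset.mem_range.1 hi), zero_mul]
    rw [h2, sub_zero]
    refine h1.congr_fun ?_
    intro j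
    change (if j + m < m then (0 : ℂ) else eval z P * hcomp f.1 (j + m - m) z) * c ^ (j + m)
      = c ^ m * eval z P * (hcomp f.1 j z * c ^ j)
    rw [if_neg (by omega), Nat.add_sub_cancel, pow_add]
    ring

lemma hcomp_expo (w : Fin n → ℂ) (k : ℕ) (z : Fin n → ℂ) :
    hcomp (expo w).1 k z = (∑ i, z i * w i) ^ k / k.factorial := by
  refine hcomp_unique (expo w).2 z (fun k => (∑ i, z i * w i) ^ k / k.factorial) (fun c => ?_) k
  have h1 := NormedSpace.expSeries_div_hasSum_exp (𝔸 := ℂ) (c * ∑ i, z i * w i)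
  rw [← Complex.exp_eq_exp_ℂ] at h1
  change HasSum _ (Complex.exp (∑ i, (c • z) i * w i))
  have h2 : ∑ i, (c • z) i * w i = c * ∑ i, z i * w i := by
    rw [Finset.mul_sum]
    refine Finset.sum_congr rfl fun i _ => ?_
    rw [Pi.smul_apply, smul_eq_mul]
    ring
  rw [h2]
  refine h1.congr_fun ?_
  intro k
  rw [mul_pow]
  ring

lemma DE_HC (j : Fin n) (k : ℕ) (f : Ent n) : DE j (HC (k + 1) f) = HC k (DE j f) := by
  apply Subtype.ext
  funext z
  set ev : Ent n →ₗ[ℂ] ℂ :=
    { toFun := fun f => f.1 z, map_add' := fun _ _ => rfl, map_smul' := fun _ _ => rfl } with hev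
  set T : Ent n →ₗ[ℂ] ℂ := ev.comp ((DE j).comp (HC (k + 1))) - ev.comp ((HC k).comp (DE j))
    with hT
  have hTa : ∀ f : Ent n, T f = (DE j (HC (k + 1) f)).1 z - (HC k (DE j f)).1 z := fun _ => rfl
  have hDb : ∀ (g : Ent n) (A : ℝ) (x : Fin n → ℂ), (∀ w, ‖w‖ ≤ ‖x‖ + 1 → ‖g.1 w‖ ≤ A) →
      ‖(DE j g).1 x‖ ≤ A := by
    intro g A x h
    have h1 := DLE_bound [j] g ‖x‖ A (fun w hw => h w (by simpa using hw)) x le_rfl
    exact h1
  have hHb : ∀ (g : Ent n) (k : ℕ) (A : ℝ) (x : Fin n → ℂ), (∀ w, ‖w‖ ≤ ‖x‖ → ‖g.1 w‖ ≤ A) →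
      ‖(HC k g).1 x‖ ≤ A := by
    intro g k A x h
    have h1 := hcomp_bound g.2 x k (r := 1) one_pos (M := A) (fun w hw => h w (by simpa using hw))
    rw [NNReal.coe_one, inv_one, one_pow, mul_one] at h1
    exact h1
  have hAF : IsAF T := by
    refine ⟨‖z‖ + 1, 2, fun f A hA => ?_⟩
    rw [hTa]
    refine (norm_sub_le _ _).trans ?_
    have h1 : ‖(DE j (HC (k + 1) f)).1 z‖ ≤ A :=
      hDb _ A z fun w hw => hHb f (k + 1) A w fun v hv => hA v (hv.trans hw)
    have h2 : ‖(HC k (DE j f)).1 z‖ ≤ A :=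
      hHb _ k A z fun w hw => hDb f A w fun v hv => hA v (hv.trans (by linarith))
    linarith
  have h0 : T = 0 := by
    refine eq_zero_of_borel hAF fun w => ?_
    rw [hTa, DE_expo, map_smul]
    have e1 : (HC (k + 1) (expo w)).1 = fun z => (∑ i, z i * w i) ^ (k + 1) / (k + 1).factorial := by
      funext x
      exact hcomp_expo w (k + 1) x
    have e2 : (DE j (HC (k + 1) (expo w))).1 z
        = w j * ((∑ i, z i * w i) ^ k / k.factorial) := by
      change fderiv ℂ (HC (k + 1) (expo w)).1 z (Pi.single j 1) = _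
      rw [e1]
      have h1 : HasFDerivAt (fun ζ : Fin n → ℂ => ∑ i, ζ i * w i)
          (∑ i, w i • (ContinuousLinearMap.proj i : (Fin n → ℂ) →L[ℂ] ℂ)) z := by
        refine HasFDerivAt.fun_sum fun i _ => ?_
        exact (ContinuousLinearMap.proj i : (Fin n → ℂ) →L[ℂ] ℂ).hasFDerivAt.mul_const (w i)
      have h2 := (h1.pow (k + 1)).mul_const (((k + 1).factorial : ℂ)⁻¹)
      have h2' : HasFDerivAt (fun ζ : Fin n → ℂ => (∑ i, ζ i * w i) ^ (k + 1) / (k + 1).factorial)
          _ z := h2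
      rw [h2'.fderiv]
      have h3 : (∑ i, w i • (ContinuousLinearMap.proj i : (Fin n → ℂ) →L[ℂ] ℂ)) (Pi.single j 1)
          = w j := by
        rw [_root_.sum_apply, Finset.sum_eq_single j]
        · simp
        · intro i _ hi
          simp [Pi.single_eq_of_ne hi]
        · intro h; exact absurd (Finset.mem_univ j) h
      simp only [smul_apply, h3, Nat.factorial_succ]
      have h4 : (k.factorial : ℂ) ≠ 0 := by exact_mod_cast Nat.factorial_ne_zero k
      have h5 : ((k : ℂ) + 1) ≠ 0 := by exact_mod_cast Nat.succ_ne_zero k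
      push_cast
      simp only [smul_eq_mul, nsmul_eq_mul]
      push_cast
      field_simp
    have e3 : (w j • HC k (expo w) : Ent n).1 z = w j * ((∑ i, z i * w i) ^ k / k.factorial) := by
      change w j * hcomp (expo w).1 k z = _
      rw [hcomp_expo]
    rw [e2, e3, sub_self]
  have h2 := hTa f
  rw [h0] at h2
  exact sub_eq_zero.1 h2.symm

lemma DLE_HC (L : List (Fin n)) : ∀ (k : ℕ) (f : Ent n),
    DLE L (HC (k + L.length) f) = HC k (DLE L f) := by
  induction L with
  | nil => intro k f; rfl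
  | cons j L ih =>
    intro k f
    change DLE L (DE j (HC (k + (L.length + 1)) f)) = HC k (DLE L (DE j f))
    rw [← add_assoc, DE_HC, ih]

lemma QDE_HC {Q : MvPolynomial (Fin n) ℂ} {m : ℕ} (h : Q.IsHomogeneous m) (k : ℕ) (f : Ent n) :
    QDE Q (HC (k + m) f) = HC k (QDE Q f) := by
  unfold QDE
  rw [LinearMap.sum_apply, LinearMap.sum_apply, map_sum]
  refine Finset.sum_congr rfl fun s hs => ?_
  rw [LinearMap.smul_apply, LinearMap.smul_apply, map_smul]
  have h1 : s.degree = m := by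
    have := h (mem_support_iff.1 hs)
    rw [← this, Finsupp.weight_apply, Finsupp.degree_apply, Finsupp.sum]
    simp
  have h2 := DLE_HC (ls s) k f
  rw [length_ls, h1] at h2
  rw [h2]

end Pool.Agent.H60.FB
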