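import Pool.Agent.H37.FB.Surj
import Pool.Agent.H77.FB.Inj

/-!
MP_6e521b_an: the a priori estimate for a polynomial in `k` linear forms with orthonormal
coefficient vectors follows from the estimate in `k` variables (helper37).
-/

open MvPolynomial MeasureTheory Pool.Agent.H77.FB

namespace Pool.Agent.H60.FB

variable {n k : ℕ}

/-- the affine map `y ↦ a + M y` -/
noncomputable def slj (M : Matrix (Fin n) (Fin k) ℂ) (a : Fin n → ℂ) (y : Fin k → ℂ) : Fin n → ℂ :=
  a + M.mulVec y

lemma slj_differentiable (M : Matrix (Fin n) (Fin k) ℂ) (a : Fin n → ℂ) :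
    Differentiable ℂ (slj M a) := by
  have h : Differentiable ℂ (fun y => (Matrix.mulVecLin M).toContinuousLinearMap y) :=
    (Matrix.mulVecLin M).toContinuousLinearMap.differentiable
  exact h.const_add a

/-- pull-back of entire functions under `y ↦ a + M y` -/
noncomputable def pb (M : Matrix (Fin n) (Fin k) ℂ) (a : Fin n → ℂ) : Ent n →ₗ[ℂ] Ent k where
  toFun f := ⟨fun y => f.1 (slj M a y), by
    have hf : Differentiable ℂ f.1 := f.2
    exact hf.comp (slj_differentiable M a)⟩
  map_add' _ _ := rfl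
  map_smul' _ _ := rfl

lemma mulVec_bound (M : Matrix (Fin n) (Fin k) ℂ) :
    ∃ c : ℝ, 0 ≤ c ∧ ∀ y, ‖M.mulVec y‖ ≤ c * ‖y‖ :=
  ⟨‖(Matrix.mulVecLin M).toContinuousLinearMap‖, norm_nonneg _, fun y =>
    (Matrix.mulVecLin M).toContinuousLinearMap.le_opNorm y⟩

lemma pb_expo (M : Matrix (Fin n) (Fin k) ℂ) (a : Fin n → ℂ) (w : Fin n → ℂ) :
    pb M a (expo w) = Complex.exp (∑ i, a i * w i) • expo (M.transpose.mulVec w) := by
  apply Subtype.ext
  funext y
  change Complex.exp (∑ i, (a i + M.mulVec y i) * w i)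
    = Complex.exp (∑ i, a i * w i) * Complex.exp (∑ j, y j * M.transpose.mulVec w j)
  rw [← Complex.exp_add]
  congr 1
  simp only [add_mul, Finset.sum_add_distrib]
  congr 1
  have h1 := Matrix.dotProduct_mulVec w M y
  have h2 : ∑ i, M.mulVec y i * w i = w ⬝ᵥ M.mulVec y := by
    unfold dotProduct
    exact Finset.sum_congr rfl fun i _ => mul_comm _ _
  have h3 : ∑ j, y j * M.transpose.mulVec w j = Matrix.vecMul w M ⬝ᵥ y := by
    rw [Matrix.mulVec_transpose]
    unfold dotProduct
    exact Finset.sum_congr rfl fun i _ => mul_comm _ _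
  rw [h2, h3, h1]

lemma slice_key (P : MvPolynomial (Fin n) ℂ) (Q : MvPolynomial (Fin k) ℂ)
    (M : Matrix (Fin n) (Fin k) ℂ) (a : Fin n → ℂ)
    (h : ∀ w, eval (M.transpose.mulVec w) (star' Q) = eval w (star' P)) (u : Ent n)
    (y : Fin k → ℂ) :
    (QDE (star' Q) (pb M a u)).1 y = (QDE (star' P) u).1 (slj M a y) := by
  obtain ⟨c, hc0, hc⟩ := mulVec_bound M
  set ev1 : Ent k →ₗ[ℂ] ℂ :=
    { toFun := fun f => f.1 y, map_add' := fun _ _ => rfl, map_smul' := fun _ _ => rfl } with hev1
  set ev2 : Ent n →ₗ[ℂ] ℂ :=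
    { toFun := fun f => f.1 (slj M a y), map_add' := fun _ _ => rfl,
      map_smul' := fun _ _ => rfl } with hev2
  set T : Ent n →ₗ[ℂ] ℂ := ev1.comp ((QDE (star' Q)).comp (pb M a))
    - ev2.comp (QDE (star' P)) with hT
  have hTa : ∀ f : Ent n, T f = (QDE (star' Q) (pb M a f)).1 y
      - (QDE (star' P) f).1 (slj M a y) := fun _ => rfl
  have hAF : IsAF T := by
    refine ⟨max (‖a‖ + c * (‖y‖ + (star' Q).totalDegree))
        (‖slj M a y‖ + (star' P).totalDegree),
      (∑ s ∈ (star' Q).support, ‖(star' Q).coeff s‖)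
        + ∑ s ∈ (star' P).support, ‖(star' P).coeff s‖, fun f A hA => ?_⟩
    rw [hTa, add_mul]
    refine (norm_sub_le _ _).trans (add_le_add ?_ ?_)
    · refine QDE_bound (star' Q) (pb M a f) ‖y‖ A (fun z hz => ?_) y le_rfl
      refine hA (slj M a z) ?_
      refine le_trans ?_ (le_max_left _ _)
      refine (norm_add_le _ _).trans (add_le_add le_rfl ?_)
      exact (hc z).trans (mul_le_mul_of_nonneg_left hz hc0)
    · exact QDE_bound (star' P) f ‖slj M a y‖ A
        (fun z hz => hA z (hz.trans (le_max_right _ _))) _ le_rfl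
  have h0 : T = 0 := by
    refine eq_zero_of_borel hAF fun w => ?_
    rw [hTa, pb_expo, map_smul, QDE_expo, QDE_expo, h w]
    have h1 := congrFun (congrArg Subtype.val (pb_expo M a w)) y
    change (expo w).1 (slj M a y)
      = Complex.exp (∑ i, a i * w i) * (expo (M.transpose.mulVec w)).1 y at h1
    change Complex.exp (∑ i, a i * w i) * (eval w (star' P) * (expo (M.transpose.mulVec w)).1 y)
      - eval w (star' P) * (expo w).1 (slj M a y) = 0
    rw [h1]
    ring
  have h2 := hTa u
  rw [h0] at h2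
  exact (sub_eq_zero.1 h2.symm)

theorem est_slice {k n : ℕ} (P : MvPolynomial (Fin n) ℂ) (Q : MvPolynomial (Fin k) ℂ)
    (L : Matrix (Fin k) (Fin n) ℂ) (hL : L * L.conjTranspose = 1)
    (hQ : ∀ y, eval y Q = eval (L.conjTranspose.mulVec y) P)
    (hP : ∀ z, eval z P = eval (L.conjTranspose.mulVec (L.mulVec z)) P) (h : Est Q) : Est P := by
  have hstar : ∀ w, eval (L.conjTranspose.transpose.mulVec w) (star' Q) = eval w (star' P) := by
    intro w
    rw [eval_star', eval_star', hQ, hP (cj w)]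
    congr 2
    have h1 : cj (L.conjTranspose.transpose.mulVec w) = L.mulVec (cj w) := by
      funext i
      simp [cj, Matrix.mulVec, dotProduct, map_sum]
    rw [h1]
  intro ρ
  obtain ⟨c1, hc10, hc1⟩ := mulVec_bound L
  obtain ⟨c2, hc20, hc2⟩ := mulVec_bound L.conjTranspose
  obtain ⟨ρQ, C, hE⟩ := h (c1 * ρ)
  refine ⟨(1 + c2 * c1) * ρ + c2 * ρQ, C, fun f hf A hA z hz => ?_⟩
  set a : Fin n → ℂ := z - L.conjTranspose.mulVec (L.mulVec z) with ha
  set u : Ent n := ⟨f, hf⟩ with hu
  have hLa : L.mulVec a = 0 := by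
    rw [ha, Matrix.mulVec_sub, Matrix.mulVec_mulVec, hL, Matrix.one_mulVec, sub_self]
  have hLj : ∀ y, L.mulVec (slj L.conjTranspose a y) = y := by
    intro y
    unfold slj
    rw [Matrix.mulVec_add, hLa, zero_add, Matrix.mulVec_mulVec, hL, Matrix.one_mulVec]
  have hPj : ∀ y, eval (slj L.conjTranspose a y) P = eval y Q := by
    intro y
    rw [hP, hLj, hQ]
  have hjz : slj L.conjTranspose a (L.mulVec z) = z := by
    unfold slj
    rw [ha, sub_add_cancel]
  have hna : ‖a‖ ≤ (1 + c2 * c1) * ρ := by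
    rw [ha]
    refine (norm_sub_le _ _).trans ?_
    have h1 : ‖L.conjTranspose.mulVec (L.mulVec z)‖ ≤ c2 * (c1 * ρ) :=
      (hc2 _).trans (mul_le_mul_of_nonneg_left
        ((hc1 z).trans (mul_le_mul_of_nonneg_left hz hc10)) hc20)
    nlinarith
  -- the estimate for `Q`
  have hF : Differentiable ℂ (pb L.conjTranspose a u).1 := (pb L.conjTranspose a u).2
  have key := hE (pb L.conjTranspose a u).1 hF A (fun y hy => by
    have e1 : (fun y => eval y Q * (pb L.conjTranspose a u).1 y)
        = (pb L.conjTranspose a (mulEnt P u)).1 := by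
      funext y'
      change eval y' Q * f (slj L.conjTranspose a y')
        = eval (slj L.conjTranspose a y') P * f (slj L.conjTranspose a y')
      rw [hPj]
    rw [e1, ← QDE_eq, slice_key P Q L.conjTranspose a hstar, QDE_eq]
    refine hA _ ?_
    unfold slj
    refine (norm_add_le _ _).trans (add_le_add hna ?_)
    exact (hc2 y).trans (mul_le_mul_of_nonneg_left hy hc20)) (L.mulVec z)
    ((hc1 z).trans (mul_le_mul_of_nonneg_left hz hc10))
  have e2 : eval (L.mulVec z) Q * (pb L.conjTranspose a u).1 (L.mulVec z) = eval z P * f z := by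
    change eval (L.mulVec z) Q * f (slj L.conjTranspose a (L.mulVec z)) = _
    rw [← hPj, hjz]
  rw [e2] at key
  exact key

end Pool.Agent.H60.FB
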