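import Pool.Agent.H60.FB.Ident
import Pool.Agent.H60.FB.Hp
import Pool.Agent.H77.FB.Bridge

/-!
Module F2 of MP_6e521b_an: from the a priori estimate `Est P` to the surjectivity of `Φ_P`,
with the representation theorem of Borel as a hypothesis (helper37).
-/

open MvPolynomial MeasureTheory Pool.Agent.H77.FB
open scoped ContDiff

namespace Pool.Agent.H60.FB

variable {n : ℕ}

/-! ### Constant-coefficient operators on entire functions -/

/-- The partial derivative as a linear operator on entire functions. -/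
noncomputable def DE (j : Fin n) : Ent n →ₗ[ℂ] Ent n where
  toFun f := ⟨D j f.1, differentiable_D f.2 j⟩
  map_add' f g := by
    apply Subtype.ext
    funext z
    change fderiv ℂ (f.1 + g.1) z (Pi.single j 1) = fderiv ℂ f.1 z (Pi.single j 1)
      + fderiv ℂ g.1 z (Pi.single j 1)
    have hf : DifferentiableAt ℂ f.1 z := f.2 z
    have hg : DifferentiableAt ℂ g.1 z := g.2 z
    rw [fderiv_add hf hg]
    rfl
  map_smul' c f := by
    apply Subtype.ext
    funext z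
    change fderiv ℂ (c • f.1) z (Pi.single j 1) = c • fderiv ℂ f.1 z (Pi.single j 1)
    have hf : DifferentiableAt ℂ f.1 z := f.2 z
    rw [fderiv_const_smul hf]
    rfl

/-- Iterated partial derivatives, as an operator. -/
noncomputable def DLE : List (Fin n) → (Ent n →ₗ[ℂ] Ent n)
  | [] => LinearMap.id
  | j :: L => (DLE L).comp (DE j)

lemma DLE_eq (L : List (Fin n)) : ∀ f : Ent n, (DLE L f).1 = DL L f.1 := by
  induction L with
  | nil => intro f; rfl
  | cons j L ih =>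
    intro f
    change (DLE L (DE j f)).1 = DL L (D j f.1)
    rw [ih]
    rfl

/-- `Q(D)` as an operator on entire functions. -/
noncomputable def QDE (Q : MvPolynomial (Fin n) ℂ) : Ent n →ₗ[ℂ] Ent n :=
  ∑ s ∈ Q.support, Q.coeff s • DLE (ls s)

lemma coe_sum {ι : Type*} (s : Finset ι) (F : ι → Ent n) (z : Fin n → ℂ) :
    (∑ i ∈ s, F i : Ent n).1 z = ∑ i ∈ s, (F i).1 z := by
  classical
  induction s using Finset.induction_on with
  | empty => simp
  | insert a s ha ih => rw [Finset.sum_insert ha, Finset.sum_insert ha, ← ih]; rfl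

lemma QDE_eq (Q : MvPolynomial (Fin n) ℂ) (f : Ent n) (z : Fin n → ℂ) :
    (QDE Q f).1 z = QD Q 1 f.1 z := by
  unfold QDE QD
  rw [LinearMap.sum_apply, coe_sum]
  refine Finset.sum_congr rfl fun s _ => ?_
  change Q.coeff s * (DLE (ls s) f).1 z = _
  rw [DLE_eq]
  simp

lemma DLE_bound (L : List (Fin n)) : ∀ (f : Ent n) (R A : ℝ),
    (∀ z, ‖z‖ ≤ R + L.length → ‖f.1 z‖ ≤ A) → ∀ z, ‖z‖ ≤ R → ‖(DLE L f).1 z‖ ≤ A := by
  induction L with
  | nil => intro f R A h z hz; exact h z (by simpa using hz)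
  | cons j L ih =>
    intro f R A h z hz
    change ‖(DLE L (DE j f)).1 z‖ ≤ A
    refine ih (DE j f) R A (fun w hw => ?_) z hz
    change ‖fderiv ℂ f.1 w (Pi.single j 1)‖ ≤ A
    have h1 : ‖fderiv ℂ f.1 w‖ ≤ A := by
      refine fderiv_bound f.2 fun v hv => h v ?_
      have h2 : ‖v‖ ≤ ‖w‖ + ‖v - w‖ := by
        have := norm_add_le w (v - w)
        simpa using this
      have h3 : (((j :: L).length : ℕ) : ℝ) = L.length + 1 := by
        rw [List.length_cons]; push_cast; ring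
      rw [h3]
      linarith
    have hA : 0 ≤ A := (norm_nonneg _).trans h1
    refine (ContinuousLinearMap.le_opNorm _ _).trans ?_
    have h4 : ‖(Pi.single j 1 : Fin n → ℂ)‖ ≤ 1 := by
      refine (pi_norm_le_iff_of_nonneg zero_le_one).2 fun i => ?_
      by_cases hi : i = j
      · subst hi; simp
      · rw [Pi.single_eq_of_ne hi]; simp
    calc ‖fderiv ℂ f.1 w‖ * ‖(Pi.single j 1 : Fin n → ℂ)‖ ≤ A * 1 :=
          mul_le_mul h1 h4 (norm_nonneg _) hA
      _ = A := mul_one A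

lemma QDE_bound (Q : MvPolynomial (Fin n) ℂ) (f : Ent n) (R A : ℝ)
    (h : ∀ z, ‖z‖ ≤ R + Q.totalDegree → ‖f.1 z‖ ≤ A) (z : Fin n → ℂ) (hz : ‖z‖ ≤ R) :
    ‖(QDE Q f).1 z‖ ≤ (∑ s ∈ Q.support, ‖Q.coeff s‖) * A := by
  unfold QDE
  rw [LinearMap.sum_apply, coe_sum, Finset.sum_mul]
  refine (norm_sum_le _ _).trans (Finset.sum_le_sum fun s hs => ?_)
  change ‖Q.coeff s * (DLE (ls s) f).1 z‖ ≤ _
  rw [norm_mul]
  refine mul_le_mul_of_nonneg_left ?_ (norm_nonneg _)
  refine DLE_bound (ls s) f R A (fun w hw => h w (hw.trans ?_)) z hz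
  rw [length_ls]
  have : (s.degree : ℝ) ≤ Q.totalDegree := by exact_mod_cast MvPolynomial.le_totalDegree hs
  linarith

/-! ### The exponentials -/

lemma DE_expo (j : Fin n) (z : Fin n → ℂ) : DE j (expo z) = z j • expo z := by
  apply Subtype.ext
  funext w
  change fderiv ℂ (fun ζ : Fin n → ℂ => Complex.exp (∑ i, ζ i * z i)) w (Pi.single j 1)
    = z j * Complex.exp (∑ i, w i * z i)
  have h1 : HasFDerivAt (fun ζ : Fin n → ℂ => ∑ i, ζ i * z i)
      (∑ i, z i • (ContinuousLinearMap.proj i : (Fin n → ℂ) →L[ℂ] ℂ)) w := by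
    refine HasFDerivAt.fun_sum fun i _ => ?_
    exact (ContinuousLinearMap.proj i : (Fin n → ℂ) →L[ℂ] ℂ).hasFDerivAt.mul_const (z i)
  have h2 := h1.cexp
  rw [h2.fderiv]
  have h3 : (∑ i, z i • (ContinuousLinearMap.proj i : (Fin n → ℂ) →L[ℂ] ℂ)) (Pi.single j 1)
      = z j := by
    rw [_root_.sum_apply, Finset.sum_eq_single j]
    · simp
    · intro i _ hi
      simp [Pi.single_eq_of_ne hi]
    · intro h; exact absurd (Finset.mem_univ j) h
  change Complex.exp (∑ i, w i * z i) *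
    (∑ i, z i • (ContinuousLinearMap.proj i : (Fin n → ℂ) →L[ℂ] ℂ)) (Pi.single j 1) = _
  rw [h3, mul_comm]

lemma DLE_expo (L : List (Fin n)) (z : Fin n → ℂ) :
    DLE L (expo z) = (L.map z).prod • expo z := by
  induction L with
  | nil => simp [DLE]
  | cons j L ih =>
    change DLE L (DE j (expo z)) = _
    rw [DE_expo, map_smul, ih, smul_smul, List.map_cons, List.prod_cons]

lemma prod_toMultiset (s : Fin n →₀ ℕ) (z : Fin n → ℂ) :
    ((Finsupp.toMultiset s).map z).prod = ∏ i, z i ^ s i := by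
  induction s using Finsupp.induction_linear with
  | zero => simp
  | add f g hf hg =>
    rw [map_add, Multiset.map_add, Multiset.prod_add, hf, hg, ← Finset.prod_mul_distrib]
    refine Finset.prod_congr rfl fun i _ => ?_
    rw [Finsupp.add_apply, pow_add]
  | single a k =>
    rw [Finsupp.toMultiset_single, Multiset.map_nsmul, Multiset.prod_nsmul,
      Multiset.map_singleton, Multiset.prod_singleton, Finset.prod_eq_single a]
    · simp
    · intro i _ hi
      simp [Ne.symm hi]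
    · intro h; exact absurd (Finset.mem_univ a) h

lemma prod_ls (s : Fin n →₀ ℕ) (z : Fin n → ℂ) : ((ls s).map z).prod = ∏ i, z i ^ s i := by
  rw [← prod_toMultiset]
  unfold ls
  rw [← Multiset.prod_coe, ← Multiset.map_coe, Multiset.coe_toList]

lemma QDE_expo (Q : MvPolynomial (Fin n) ℂ) (z : Fin n → ℂ) :
    QDE Q (expo z) = eval z Q • expo z := by
  unfold QDE
  rw [LinearMap.sum_apply, MvPolynomial.eval_eq', Finset.sum_smul]
  refine Finset.sum_congr rfl fun s _ => ?_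
  rw [LinearMap.smul_apply, DLE_expo, prod_ls, smul_smul]

/-! ### Hahn-Banach -/

lemma factor_ext {E F : Type*} [AddCommGroup E] [Module ℂ E] [NormedAddCommGroup F]
    [NormedSpace ℂ F] (T : E →ₗ[ℂ] ℂ) (ρ : E →ₗ[ℂ] F) {K : ℝ} (hb : ∀ f, ‖T f‖ ≤ K * ‖ρ f‖) :
    ∃ S : StrongDual ℂ F, ∀ f, T f = S (ρ f) := by
  have hker : LinearMap.ker ρ ≤ LinearMap.ker T := by
    intro f hf
    rw [LinearMap.mem_ker] at hf ⊢
    have := hb f
    rw [hf, norm_zero, mul_zero] at this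
    exact norm_le_zero_iff.1 this
  let T' : LinearMap.range ρ →ₗ[ℂ] ℂ :=
    ((LinearMap.ker ρ).liftQ T hker).comp (LinearMap.quotKerEquivRange ρ).symm.toLinearMap
  have hT' : ∀ f : E, T' ⟨ρ f, LinearMap.mem_range_self _ f⟩ = T f := by
    intro f
    have h1 : (LinearMap.quotKerEquivRange ρ).symm
        ⟨ρ f, LinearMap.mem_range_self _ f⟩ = Submodule.Quotient.mk f := by
      rw [LinearEquiv.symm_apply_eq]
      rfl
    change ((LinearMap.ker ρ).liftQ T hker)
      ((LinearMap.quotKerEquivRange ρ).symm ⟨ρ f, LinearMap.mem_range_self _ f⟩) = T f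
    rw [h1]
    rfl
  let T'' : StrongDual ℂ (LinearMap.range ρ) :=
    T'.mkContinuous K (by
      rintro ⟨_, f, rfl⟩
      rw [hT' f]
      exact hb f)
  obtain ⟨S, hS, -⟩ := exists_extension_norm_eq _ T''
  refine ⟨S, fun f => ?_⟩
  have h2 := hS ⟨ρ f, LinearMap.mem_range_self _ f⟩
  rw [h2]
  exact (hT' f).symm

lemma restr_le {R : ℝ} {f : Ent n} {A : ℝ} (hR : 0 ≤ R) (h : ∀ z, ‖z‖ ≤ R → ‖f.1 z‖ ≤ A) :
    ‖restr R f‖ ≤ A := by
  have hA : 0 ≤ A := (norm_nonneg _).trans (h 0 (by simpa using hR))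
  refine (ContinuousMap.norm_le _ hA).2 fun ζ => h ζ.1 ?_
  exact mem_closedBall_zero_iff.1 ζ.2

/-- F2: the a priori estimate implies surjectivity. -/
theorem surj_of_est (P : MvPolynomial (Fin n) ℂ) (h : Est P)
    (hB : ∀ s : (Fin n → ℂ) → ℂ, ExpType s →
      ∃ S : ((Fin n → ℂ) → ℂ) → ℂ, AnFunctional S ∧ ∀ z, fourierBorel S z = s z) :
    PhiSurjective P := by
  classical
  intro s hs
  obtain ⟨S₀, hS₀, hS₀s⟩ := hB s hs
  set S : Ent n →ₗ[ℂ] ℂ := bund hS₀ with hS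
  have hSs : ∀ z, S (expo z) = s z := fun z => hS₀s z
  obtain ⟨R₀, C₀, hSb⟩ := bund_isAF hS₀
  obtain ⟨ρ', C, hE⟩ := h R₀
  set R := max ρ' 0 with hR
  have hR0 : 0 ≤ R := le_max_right _ _
  -- the functional on `P · H` factors through `P*(D) P`
  obtain ⟨U, hU⟩ := factor_ext (S.comp (mulEnt P))
    ((restr R).comp ((QDE (star' P)).comp (mulEnt P))) (K := C₀ * C) (by
      intro f
      rw [mul_assoc]
      refine hSb (mulEnt P f) _ fun z hz => ?_
      refine hE f.1 f.2 _ (fun w hw => ?_) z hz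
      have h1 : QD (star' P) 1 (fun z => eval z P * f.1 z) w
          = (QDE (star' P) (mulEnt P f)).1 w := (QDE_eq (star' P) (mulEnt P f) w).symm
      rw [h1]
      exact (restr R (QDE (star' P) (mulEnt P f))).norm_coe_le_norm
        ⟨w, by rw [mem_closedBall_zero_iff]; exact hw.trans (le_max_left _ _)⟩)
  set V : Ent n →ₗ[ℂ] ℂ := U.toLinearMap.comp (restr R) with hV
  have hVb : ∀ f : Ent n, ∀ A : ℝ, (∀ z, ‖z‖ ≤ R → ‖f.1 z‖ ≤ A) → ‖V f‖ ≤ ‖U‖ * A := by
    intro f A hA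
    exact (U.le_opNorm _).trans (mul_le_mul_of_nonneg_left (restr_le hR0 hA) (norm_nonneg _))
  have hVAF : IsAF V := ⟨R, ‖U‖, hVb⟩
  set T : Ent n →ₗ[ℂ] ℂ := S - V.comp (QDE (star' P)) with hT
  set T₀ : ((Fin n → ℂ) → ℂ) → ℂ := fun f => if hf : Differentiable ℂ f then T ⟨f, hf⟩ else 0
    with hT₀
  have hT₀e : ∀ f : Ent n, T₀ f.1 = T f := by
    intro f
    have hf : Differentiable ℂ f.1 := f.2
    rw [hT₀]
    simp only
    rw [dif_pos hf]
  refine ⟨T₀, fun z => V (expo z), ⟨?_, ?_, ?_⟩, ?_, ?_, ?_⟩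
  · intro f g hf hg
    have h1 := hT₀e (⟨f, hf⟩ + ⟨g, hg⟩ : Ent n)
    have h2 := hT₀e ⟨f, hf⟩
    have h3 := hT₀e ⟨g, hg⟩
    rw [map_add, ← h2, ← h3] at h1
    exact h1
  · intro c f hf
    have h1 := hT₀e (c • ⟨f, hf⟩ : Ent n)
    have h2 := hT₀e ⟨f, hf⟩
    rw [map_smul, ← h2, smul_eq_mul] at h1
    exact h1
  · refine ⟨max R₀ (R + (star' P).totalDegree),
      C₀ + ‖U‖ * ∑ s ∈ (star' P).support, ‖(star' P).coeff s‖, fun f hf A hA => ?_⟩
    have h1 := hT₀e ⟨f, hf⟩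
    change T₀ f = T ⟨f, hf⟩ at h1
    rw [h1]
    change ‖S ⟨f, hf⟩ - V (QDE (star' P) ⟨f, hf⟩)‖ ≤ _
    refine (norm_sub_le _ _).trans ?_
    have h2 : ‖S ⟨f, hf⟩‖ ≤ C₀ * A :=
      hSb ⟨f, hf⟩ A fun z hz => hA z (hz.trans (le_max_left _ _))
    have h3 : ‖V (QDE (star' P) ⟨f, hf⟩)‖
        ≤ ‖U‖ * ((∑ s ∈ (star' P).support, ‖(star' P).coeff s‖) * A) :=
      hVb _ _ fun z hz => QDE_bound (star' P) ⟨f, hf⟩ R A
        (fun w hw => hA w (hw.trans (le_max_right _ _))) z hz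
    calc ‖S ⟨f, hf⟩‖ + ‖V (QDE (star' P) ⟨f, hf⟩)‖
        ≤ C₀ * A + ‖U‖ * ((∑ s ∈ (star' P).support, ‖(star' P).coeff s‖) * A) := add_le_add h2 h3
      _ = _ := by ring
  · intro f hf
    have h1 := hT₀e (mulEnt P ⟨f, hf⟩)
    change T₀ (fun z => eval z P * f z) = T (mulEnt P ⟨f, hf⟩) at h1
    rw [h1]
    have h2 := hU ⟨f, hf⟩
    change S (mulEnt P ⟨f, hf⟩) = V (QDE (star' P) (mulEnt P ⟨f, hf⟩)) at h2
    change S (mulEnt P ⟨f, hf⟩) - V (QDE (star' P) (mulEnt P ⟨f, hf⟩)) = 0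
    rw [h2, sub_self]
  · exact borel_mem hVAF
  · intro z
    have h1 : fourierBorel T₀ z = T (expo z) := hT₀e (expo z)
    have h2 : T (expo z) = S (expo z) - V (QDE (star' P) (expo z)) := rfl
    rw [h1, h2, QDE_expo, map_smul, hSs, smul_eq_mul]
    change s z = s z - eval z (star' P) * V (expo z) + eval z (star' P) * V (expo z)
    ring

end Pool.Agent.H60.FB
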